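import Mathlib

set_option autoImplicit false
set_option linter.unusedVariables false
set_option linter.unusedSectionVars false

universe u

open TensorProduct

namespace Pool.Agent.W558.WT

section pi

variable {k : Type u} [Field k] {n : ℕ} {A : Fin n → Type u} [∀ i, CommRing (A i)]
  [∀ i, Algebra k (A i)]

/-- The inclusion of a factor into the tensor product. -/
noncomputable abbrev sg (i : Fin n) : A i →ₐ[k] (⨂[k] i, A i) :=
  PiTensorProduct.singleAlgHom (R := k) (A := A) i

lemma pi_lift (S : Type u) [CommRing S] [Algebra k S] (f : ∀ i, A i →ₐ[k] S) :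
    ∃ g : (⨂[k] i, A i) →ₐ[k] S, ∀ i a, g (sg i a) = f i a := by
  let F : MultilinearMap k A S :=
    (MultilinearMap.mkPiAlgebra k (Fin n) S).compLinearMap fun i => (f i).toLinearMap
  have hF : ∀ x, F x = ∏ i, f i (x i) := fun x => by
    change MultilinearMap.mkPiAlgebra k (Fin n) S (fun i => f i (x i)) = _
    rw [MultilinearMap.mkPiAlgebra_apply]
  refine ⟨PiTensorProduct.liftAlgHom F ?_ ?_, ?_⟩
  · rw [hF]
    simp
  · intro x y
    rw [hF, hF, hF, ← Finset.prod_mul_distrib]
    refine Finset.prod_congr rfl fun i _ => ?_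
    rw [Pi.mul_apply, map_mul]
  · intro i a
    change PiTensorProduct.lift F (PiTensorProduct.tprod k (MonoidHom.mulSingle _ i a)) = _
    rw [PiTensorProduct.lift.tprod, hF, Finset.prod_eq_single i]
    · rw [MonoidHom.mulSingle_apply, Pi.mulSingle_eq_same]
    · intro l _ hl
      rw [MonoidHom.mulSingle_apply, Pi.mulSingle_eq_of_ne hl, map_one]
    · intro h
      exact absurd (Finset.mem_univ i) h

lemma pi_ext {S : Type u} [CommRing S] [Algebra k S] {g g' : (⨂[k] i, A i) →ₐ[k] S}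
    (h : ∀ i a, g (sg i a) = g' (sg i a)) : g = g' := by
  apply PiTensorProduct.algHom_ext
  intro i
  apply AlgHom.ext
  intro a
  exact h i a

lemma pi_adjoin : Algebra.adjoin k (⋃ i, Set.range (sg (k := k) (A := A) i)) = ⊤ := by
  set B' := Algebra.adjoin k (⋃ i, Set.range (sg (k := k) (A := A) i)) with hB'
  have hmem : ∀ i a, sg (k := k) (A := A) i a ∈ B' := fun i a =>
    Algebra.subset_adjoin (Set.mem_iUnion.2 ⟨i, a, rfl⟩)
  obtain ⟨g, hg⟩ := pi_lift B' fun i => (sg (k := k) (A := A) i).codRestrict B' (hmem i)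
  have h1 : B'.val.comp g = AlgHom.id k (⨂[k] i, A i) := by
    apply pi_ext
    intro i a
    rw [AlgHom.comp_apply, hg]
    rfl
  rw [eq_top_iff]
  intro b _
  have h2 := congrArg (fun φ : (⨂[k] i, A i) →ₐ[k] (⨂[k] i, A i) => φ b) h1
  change ((g b : B') : (⨂[k] i, A i)) = b at h2
  rw [← h2]
  exact (g b).2

lemma pi_equiv (σ : ∀ i, A i ≃ₐ[k] A i) :
    ∃ s : (⨂[k] i, A i) ≃ₐ[k] (⨂[k] i, A i), ∀ i a, s (sg i a) = sg i (σ i a) := by
  obtain ⟨g, hg⟩ := pi_lift (⨂[k] i, A i) fun i => (sg i).comp (σ i : A i →ₐ[k] A i)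
  obtain ⟨g', hg'⟩ := pi_lift (⨂[k] i, A i) fun i => (sg i).comp ((σ i).symm : A i →ₐ[k] A i)
  have h1 : g.comp g' = AlgHom.id k (⨂[k] i, A i) := by
    apply pi_ext
    intro i a
    rw [AlgHom.comp_apply, hg']
    change g (sg i ((σ i).symm a)) = _
    rw [hg]
    change sg i (σ i ((σ i).symm a)) = _
    rw [AlgEquiv.apply_symm_apply]
    rfl
  have h2 : g'.comp g = AlgHom.id k (⨂[k] i, A i) := by
    apply pi_ext
    intro i a
    rw [AlgHom.comp_apply, hg]
    change g' (sg i (σ i a)) = _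
    rw [hg']
    change sg i ((σ i).symm (σ i a)) = _
    rw [AlgEquiv.symm_apply_apply]
    rfl
  exact ⟨AlgEquiv.ofAlgHom g g' h1 h2, hg⟩

lemma sg_injective [∀ i, Nontrivial (A i)] (i : Fin n) :
    Function.Injective (sg (k := k) (A := A) i) := by
  have h1 : ∀ l, ∃ φ : A l →ₗ[k] k, φ 1 = 1 := by
    intro l
    have hinj : LinearMap.ker (LinearMap.toSpanSingleton k (A l) 1) = ⊥ := by
      rw [LinearMap.ker_eq_bot']
      intro r hr
      rw [LinearMap.toSpanSingleton_apply, ← Algebra.algebraMap_eq_smul_one] at hr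
      exact (map_eq_zero_iff _ (algebraMap k (A l)).injective).1 hr
    obtain ⟨φ, hφ⟩ := LinearMap.exists_leftInverse_of_injective _ hinj
    refine ⟨φ, ?_⟩
    have h2 := congrArg (fun f : k →ₗ[k] k => f 1) hφ
    simpa using h2
  choose φ hφ using h1
  let Lm : ∀ l, A l →ₗ[k] A i := fun l =>
    if h : l = i then (h ▸ LinearMap.id) else (Algebra.linearMap k (A i)).comp (φ l)
  have hLi : ∀ a : A i, Lm i a = a := by
    intro a
    simp only [Lm, dif_pos]
    rfl
  have hLl : ∀ l, l ≠ i → Lm l 1 = 1 := by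
    intro l hl
    simp only [Lm, dif_neg hl]
    change algebraMap k (A i) (φ l 1) = 1
    rw [hφ, map_one]
  let F : MultilinearMap k A (A i) :=
    (MultilinearMap.mkPiAlgebra k (Fin n) (A i)).compLinearMap Lm
  have hF : ∀ x, F x = ∏ l, Lm l (x l) := fun x => by
    change MultilinearMap.mkPiAlgebra k (Fin n) (A i) (fun l => Lm l (x l)) = _
    rw [MultilinearMap.mkPiAlgebra_apply]
  have hkey : ∀ a : A i, PiTensorProduct.lift F
      (PiTensorProduct.singleAlgHom (R := k) (A := A) i a) = a := by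
    intro a
    change PiTensorProduct.lift F (PiTensorProduct.tprod k (MonoidHom.mulSingle _ i a)) = _
    rw [PiTensorProduct.lift.tprod, hF, Finset.prod_eq_single i]
    · rw [MonoidHom.mulSingle_apply, Pi.mulSingle_eq_same, hLi]
    · intro l _ hl
      rw [MonoidHom.mulSingle_apply, Pi.mulSingle_eq_of_ne hl, hLl l hl]
    · intro h
      exact absurd (Finset.mem_univ i) h
  intro a b hab
  rw [← hkey a, ← hkey b, hab]

lemma pi_finiteType (hA : ∀ i, Algebra.FiniteType k (A i)) :
    Algebra.FiniteType k (⨂[k] i, A i) := by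
  classical
  choose s hs using fun i => (hA i).1
  constructor
  refine ⟨Finset.univ.biUnion fun i => (s i).image (sg (k := k) (A := A) i), ?_⟩
  rw [eq_top_iff, ← pi_adjoin, Algebra.adjoin_le_iff]
  intro b hb
  obtain ⟨i, a, rfl⟩ := Set.mem_iUnion.1 hb
  have h1 : (Algebra.adjoin k (s i : Set (A i))).map (sg (k := k) (A := A) i) ≤
      Algebra.adjoin k ((Finset.univ.biUnion fun i => (s i).image (sg (k := k) (A := A) i) :
        Finset (⨂[k] i, A i)) : Set (⨂[k] i, A i)) := by
    rw [AlgHom.map_adjoin]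
    apply Algebra.adjoin_mono
    rintro _ ⟨x, hx, rfl⟩
    rw [Finset.mem_coe, Finset.mem_biUnion]
    exact ⟨i, Finset.mem_univ i, Finset.mem_image.2 ⟨x, hx, rfl⟩⟩
  apply h1
  rw [hs]
  exact ⟨a, trivial, rfl⟩

/-- The tensor product is integral over a subalgebra which contains elements over which the
factors are integral. -/
lemma pi_integral (Inv : Subalgebra k (⨂[k] i, A i)) (S : ∀ i, Finset (A i))
    (hSi : ∀ i, ∀ a : A i, IsIntegral (Algebra.adjoin k (S i : Set (A i))) a)
    (R0 : Subalgebra k Inv)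
    (hR : ∀ i, ∀ a ∈ S i, ∃ r ∈ R0, (r : ⨂[k] i, A i) = sg i a) (b : ⨂[k] i, A i) :
    IsIntegral R0 b := by
  have hinj : Function.Injective Inv.val := Subtype.val_injective
  have h1 : ∀ i (a : A i), IsIntegral R0 (sg (k := k) (A := A) i a) := by
    intro i a
    have h2 : ∀ r : Algebra.adjoin k (S i : Set (A i)), sg (k := k) (A := A) i r ∈
        R0.map Inv.val := by
      have h3 : (Algebra.adjoin k (S i : Set (A i))).map (sg (k := k) (A := A) i) ≤
          R0.map Inv.val := by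
        rw [AlgHom.map_adjoin, Algebra.adjoin_le_iff]
        rintro _ ⟨a, ha, rfl⟩
        obtain ⟨r, hr, h⟩ := hR i a ha
        exact ⟨r, hr, h⟩
      exact fun r => h3 ⟨r, r.2, rfl⟩
    let φ : Algebra.adjoin k (S i : Set (A i)) →ₐ[k] R0 :=
      ((R0.equivMapOfInjective Inv.val hinj).symm : R0.map Inv.val →ₐ[k] R0).comp
        (((sg (k := k) (A := A) i).comp (Algebra.adjoin k (S i : Set (A i))).val).codRestrict
          (R0.map Inv.val) h2)
    refine IsIntegral.map_of_comp_eq (φ : Algebra.adjoin k (S i : Set (A i)) →+* R0)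
      (sg (k := k) (A := A) i : A i →+* (⨂[k] i, A i)) ?_ (hSi i a)
    apply RingHom.ext
    intro r
    have h4 : (R0.equivMapOfInjective Inv.val hinj (φ r) : (⨂[k] i, A i)) = sg i r := by
      change ((R0.equivMapOfInjective Inv.val hinj
        ((R0.equivMapOfInjective Inv.val hinj).symm ⟨sg i r, h2 r⟩) : R0.map Inv.val) :
          (⨂[k] i, A i)) = _
      rw [AlgEquiv.apply_symm_apply]
    exact h4
  have h2 : Algebra.adjoin k (⋃ i, Set.range (sg (k := k) (A := A) i)) ≤
      (integralClosure R0 (⨂[k] i, A i)).restrictScalars k := by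
    rw [Algebra.adjoin_le_iff]
    intro b hb
    obtain ⟨i, a, rfl⟩ := Set.mem_iUnion.1 hb
    exact h1 i a
  rw [pi_adjoin] at h2
  exact h2 (x := b) trivial

end pi

section fix

variable {k E : Type u} [Field k] [Field E] [Algebra k E]

/-- The field fixed by a set of automorphisms. -/
def fixF (T : Set (E ≃ₐ[k] E)) : IntermediateField k E where
  carrier := {y | ∀ t ∈ T, t y = y}
  mul_mem' := fun ha hb t ht => by rw [map_mul, ha t ht, hb t ht]
  add_mem' := fun ha hb t ht => by rw [map_add, ha t ht, hb t ht]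
  algebraMap_mem' := fun c t _ => t.commutes c
  inv_mem' := fun a ha t ht => by rw [map_inv₀, ha t ht]

lemma mem_fixF {T : Set (E ≃ₐ[k] E)} {y : E} : y ∈ fixF T ↔ ∀ t ∈ T, t y = y := Iff.rfl

end fix

section act

variable {p : ℕ} [Fact p.Prime] {k : Type u} [Field k] {n : ℕ} {A : Fin n → Type u}
  [∀ i, CommRing (A i)] [∀ i, Algebra k (A i)] {σ : ∀ i, A i ≃ₐ[k] A i}
  (hσ : ∀ i, σ i ^ p = 1) {s : (Fin n → ZMod p) → (⨂[k] i, A i) ≃ₐ[k] (⨂[k] i, A i)}
  (hs : ∀ g i a, s g (sg i a) = sg i ((σ i ^ (g i).val) a))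

include hσ hs

/-- The group law. -/
lemma s_add (g g' : Fin n → ZMod p) (b : ⨂[k] i, A i) : s (g + g') b = s g (s g' b) := by
  have h : ((s (g + g') : (⨂[k] i, A i) →ₐ[k] (⨂[k] i, A i))) =
      (s g : (⨂[k] i, A i) →ₐ[k] (⨂[k] i, A i)).comp
        (s g' : (⨂[k] i, A i) →ₐ[k] (⨂[k] i, A i)) := by
    apply pi_ext
    intro i a
    rw [AlgHom.comp_apply]
    change s (g + g') (sg i a) = s g (s g' (sg i a))
    rw [hs, hs, hs]
    have h1 : σ i ^ ((g + g') i).val = σ i ^ (g i).val * σ i ^ (g' i).val := by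
      rw [← pow_add, Pi.add_apply, ZMod.val_add, ← pow_eq_pow_mod _ (hσ i)]
    rw [h1]
    rfl
  exact congrArg (fun φ : (⨂[k] i, A i) →ₐ[k] (⨂[k] i, A i) => φ b) h

end act

end Pool.Agent.W558.WT
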