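import Pool.Agent.W558.WT.Defs

set_option autoImplicit false
set_option linter.unusedVariables false
set_option linter.unusedSectionVars false

universe u

open Polynomial AlgebraicGeometry CategoryTheory Pool.Agent.H920R2 TensorProduct

namespace Pool.Agent.W558

/-! ## One Artin-Schreier extension, relative version -/

/-- PAS: relation to `PAS`. -/
def WT_pas : Prop := ∀ (p : ℕ) [Fact p.Prime] (k L N : Type u) [Field k] [CharP k p] [Field L]
  [Field N] [Algebra k L] [Algebra k N] [Algebra L N] [IsScalarTower k L N] (T0 I0 T I : Type)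
  [Fintype I0] [Fintype I] (B : LM (⊥ : Subalgebra k L) ⊤ T0 I0) (f : L) (n0 : I0 → ℤ)
  (a0 h0 : T0 → L) (M : LM (⊥ : Subalgebra k N) ⊤ T I) (F : N) (Q : Subalgebra k N) (y : T → N)
  (c μ : I → ℤ), NAS p B f n0 a0 h0 → PAX p B M F Q y h0 n0 c μ →
  ∃ h r : T → N, PAS p M F Q y h r c μ

/-- BUN: the projective line bundle with the local coordinates `(Z - a t) / x ^ m`. -/
def WT_bun : Prop := ∀ (p : ℕ) [Fact p.Prime] (k L N : Type u) [Field k] [CharP k p] [Field L]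
  [Field N] [Algebra k L] [Algebra k N] [Algebra L N] [IsScalarTower k L N] (T I G : Type)
  [Finite T] [Fintype I] (M : LM (⊥ : Subalgebra k L) ⊤ T I) (f : L) (n : I → ℤ) (a h : T → L)
  (g : G → L) (Γ : G → I → ℤ),
  NAS p M f n a h → Frc M → Fn M g Γ → (∀ b : L, b ^ p - b ≠ f) →
  ∀ Z : N, Transcendental L Z → (∀ x : N, ∃ P P' : L[X], P' ≠ 0 ∧ x * aeval Z P' = aeval Z P) →
  ∀ Q : Subalgebra k N, IsQA p Z f Q →
  ∃ (T' I' : Type) (_ : Finite T') (_ : Fintype I') (M' : LM (⊥ : Subalgebra k N) ⊤ T' I')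
    (y : T' → N) (c μ : I' → ℤ) (Γ' : G → I' → ℤ),
    PAX p M M' (Z ^ p - Z - algebraMap L N f) Q y h n c μ ∧ Lq M' Q ∧
    Fn M' (fun b => algebraMap L N (g b)) Γ'

/-- PBL: the blowup of the intersection of the component `i` of the boundary and of the divisors
`y t = 0`. -/
def WT_pbl : Prop := ∀ (p : ℕ) [Fact p.Prime] (k L N : Type u) [Field k] [CharP k p] [Field L]
  [Field N] [Algebra k L] [Algebra k N] [Algebra L N] [IsScalarTower k L N]
  (T0 I0 T I G : Type) [Fintype I0] [Finite T] [Fintype I] [DecidableEq I]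
  (B : LM (⊥ : Subalgebra k L) ⊤ T0 I0) (n0 : I0 → ℤ) (h0 : T0 → L)
  (M : LM (⊥ : Subalgebra k N) ⊤ T I) (F : N) (Q : Subalgebra k N) (y : T → N) (c μ : I → ℤ)
  (g : G → N) (Γ : G → I → ℤ), PAX p B M F Q y h0 n0 c μ → Lq M Q → Fn M g Γ → ∀ i, 0 < c i →
  (∀ t t', ∃ n : ℕ, ∃ α ∈ M.A t, ∃ β ∈ M.A t,
    (M.H t' / M.H t) ^ n * y t' = α * y t + β * M.x t i) →
  ∃ (M' : LM (⊥ : Subalgebra k N) ⊤ (T × Bool) (Option I)) (y' : T × Bool → N)
    (μ' : Option I → ℤ) (Γ' : G → Option I → ℤ),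
    PAX p B M' F Q y' h0 n0 (fun o => o.elim (c i - p) c) μ' ∧ Lq M' Q ∧ Fn M' g Γ' ∧
    SepY M' y' (some i) ∧ (∀ l l', Sep M l l' → Sep M' (some l) (some l')) ∧
    (∀ l, SepY M y l → SepY M' y' (some l)) ∧ (∀ l, Sep M i l → Sep M' none (some l)) ∧
    (∀ l, SepY M y l → Sep M' none (some l))

/-- TBL: the blowup of the intersection of two components of the boundary. -/
def WT_tbl : Prop := ∀ (p : ℕ) [Fact p.Prime] (k L N : Type u) [Field k] [CharP k p] [Field L]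
  [Field N] [Algebra k L] [Algebra k N] [Algebra L N] [IsScalarTower k L N]
  (T0 I0 T I G : Type) [Fintype I0] [Finite T] [Fintype I] [DecidableEq I]
  (B : LM (⊥ : Subalgebra k L) ⊤ T0 I0) (n0 : I0 → ℤ) (h0 : T0 → L)
  (M : LM (⊥ : Subalgebra k N) ⊤ T I) (F : N) (Q : Subalgebra k N) (y : T → N) (c μ : I → ℤ)
  (g : G → N) (Γ : G → I → ℤ), PAX p B M F Q y h0 n0 c μ → Lq M Q → Fn M g Γ → ∀ i j, i ≠ j →
  0 < c i → c j < 0 →
  ∃ (M' : LM (⊥ : Subalgebra k N) ⊤ (T × Bool) (Option I)) (y' : T × Bool → N)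
    (μ' : Option I → ℤ) (Γ' : G → Option I → ℤ),
    PAX p B M' F Q y' h0 n0 (fun o => o.elim (c i + c j) c) μ' ∧ Lq M' Q ∧ Fn M' g Γ' ∧
    Sep M' (some i) (some j) ∧ (∀ l l', Sep M l l' → Sep M' (some l) (some l')) ∧
    (∀ l, Sep M i l → Sep M' none (some l)) ∧ (∀ l, Sep M j l → Sep M' none (some l)) ∧
    (∀ l, SepY M y l → SepY M' y' (some l)) ∧ (SepY M y i → SepY M' y' none)

/-- PPR: principalization. -/
def WT_ppr : Prop := ∀ (p : ℕ) [Fact p.Prime] (k L N : Type u) [Field k] [PerfectField k]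
  [CharP k p] [Field L] [Field N] [Algebra k L] [Algebra k N] [Algebra L N] [IsScalarTower k L N]
  (T0 I0 T I G : Type) [Fintype I0] [Finite T] [Fintype I]
  (B : LM (⊥ : Subalgebra k L) ⊤ T0 I0) (f : L) (n0 : I0 → ℤ) (a0 h0 : T0 → L)
  (M : LM (⊥ : Subalgebra k N) ⊤ T I) (F : N) (Q : Subalgebra k N) (y : T → N)
  (c μ : I → ℤ) (g : G → N) (Γ : G → I → ℤ), NAS p B f n0 a0 h0 →
  PAX p B M F Q y h0 n0 c μ → Lq M Q → Fn M g Γ →
  ∃ (T' I' : Type) (_ : Finite T') (_ : Fintype I') (M' : LM (⊥ : Subalgebra k N) ⊤ T' I')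
    (y' : T' → N) (c' μ' : I' → ℤ) (Γ' : G → I' → ℤ),
    PAX p B M' F Q y' h0 n0 c' μ' ∧ Lq M' Q ∧ Fn M' g Γ' ∧ Fin2 M' y' c'

/-- PCUT: restriction to the divisor of `F`. -/
def WT_pcut : Prop := ∀ (p : ℕ) [Fact p.Prime] (k L N K : Type u) [Field k] [PerfectField k]
  [CharP k p] [Field L] [Field N] [Field K] [Algebra k L] [Algebra k N] [Algebra L N]
  [IsScalarTower k L N] [Algebra k K] [Algebra L K] [IsScalarTower k L K]
  (T0 I0 T I G : Type) [Fintype I0] [Finite T] [Fintype I]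
  (B : LM (⊥ : Subalgebra k L) ⊤ T0 I0) (f : L) (n0 : I0 → ℤ) (a0 h0 : T0 → L)
  (M : LM (⊥ : Subalgebra k N) ⊤ T I) (F : N) (Q : Subalgebra k N) (y : T → N) (c μ : I → ℤ)
  (g : G → L) (Γ : G → I → ℤ) (hN : NAS p B f n0 a0 h0), PAX p B M F Q y h0 n0 c μ → Lq M Q →
  Fn M (fun b => algebraMap L N (g b)) Γ → Fin2 M y c →
  F ∈ Q → F ≠ 0 → ∀ π : Q →ₐ[k] K, (∀ q : Q, π q = 0 ↔ ∃ r ∈ Q, (q : N) = F * r) →
  Function.Surjective π → (∀ x : N, x ∈ Q ∨ x⁻¹ ∈ Q) →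
  (∀ (l : L) (hl : algebraMap L N l ∈ Q), π ⟨algebraMap L N l, hl⟩ = algebraMap L K l) →
  ∃ (T' I' : Type) (_ : Finite T') (_ : Fintype I') (M' : LM (⊥ : Subalgebra k K) ⊤ T' I')
    (π' : T' → T0) (Θ' : I' → I0 → ℤ) (ho : Ovr B M' π' Θ') (Γ' : G → I' → ℤ),
    CLift ho n0 h0 hN.hA ∧ Fn M' (fun b => algebraMap L K (g b)) Γ' ∧ Frc M'

/-! ## Towers -/

/-- INIT: the beginning of the tower. -/
def WT_init : Prop := ∀ (p : ℕ) [Fact p.Prime] (k L : Type u) [Field k] [Field L] [Algebra k L]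
  [CharP L p] (T I ι : Type) [Finite T] [Fintype I] [Fintype ι]
  (M : LM (⊥ : Subalgebra k L) ⊤ T I) (f : ι → L) (n : ι → I → ℤ) (a h : T → ι → L),
  NBS p M f n a h →
  ∃ (T' I' : Type) (_ : Finite T') (_ : Fintype I') (M' : LM (⊥ : Subalgebra k L) ⊤ T' I')
    (π : T' → T) (Θ : I' → I → ℤ) (n' : ι → I' → ℤ) (a' h' : T' → ι → L),
    Ov M M' π Θ ∧ TW p M' f n' a' h' ⊥ (fun _ => ∅)

/-- TN: existence of the normal form of a combination. -/
def WT_tn : Prop := ∀ (p : ℕ) [Fact p.Prime] (k L : Type u) [Field k] [Field L] [Algebra k L]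
  [CharP L p] (T I ι : Type) [Finite T] [Fintype I] [Fintype ι]
  (M : LM (⊥ : Subalgebra k L) ⊤ T I) (f : ι → L) (n : ι → I → ℤ) (a h : T → ι → L)
  (Λ : Submodule (ZMod p) (ι → ZMod p)) (R : T → Set ι), TW p M f n a h Λ R →
  ∀ lam : ι → ZMod p, lam ∉ Λ →
  ∃ (n' : I → ℤ) (h' : T → L) (lr : T → ι → ZMod p) (j0 : T → ι),
    TN p M n h Λ R lam n' h' lr j0

/-- NAS: the normal form of a combination. -/
def WT_nas : Prop := ∀ (p : ℕ) [Fact p.Prime] (k L : Type u) [Field k] [Field L] [Algebra k L]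
  [CharP L p] (T I ι : Type) [Finite T] [Fintype I] [Fintype ι]
  (M : LM (⊥ : Subalgebra k L) ⊤ T I) (f : ι → L) (n : ι → I → ℤ) (a h : T → ι → L)
  (Λ : Submodule (ZMod p) (ι → ZMod p)) (R : T → Set ι), TW p M f n a h Λ R →
  ∀ (lam : ι → ZMod p) (n' : I → ℤ) (h' : T → L) (lr : T → ι → ZMod p) (j0 : T → ι),
    TN p M n h Λ R lam n' h' lr j0 →
    ∃ a' : T → L, NAS p M (∑ j, zc p L (lam j) * f j) n' a' h'

/-- NXT: the next step of the tower. -/
def WT_nxt : Prop := ∀ (p : ℕ) [Fact p.Prime] (k L K : Type u) [Field k] [Field L] [Field K]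
  [Algebra k L] [Algebra k K] [Algebra L K] [IsScalarTower k L K] [CharP L p] [CharP K p]
  (T I T1 I1 ι : Type) [Finite T] [Fintype I] [Finite T1] [Fintype I1] [Fintype ι]
  (M : LM (⊥ : Subalgebra k L) ⊤ T I) (f : ι → L) (n : ι → I → ℤ) (a h : T → ι → L)
  (Λ : Submodule (ZMod p) (ι → ZMod p)) (R : T → Set ι), TW p M f n a h Λ R →
  ∀ (lam : ι → ZMod p) (n' : I → ℤ) (h' : T → L) (lr : T → ι → ZMod p) (j0 : T → ι),
    TN p M n h Λ R lam n' h' lr j0 → ∀ hA' : ∀ t, h' t ∈ M.A t,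
  ∀ (M1 : LM (⊥ : Subalgebra k K) ⊤ T1 I1) (π : T1 → T) (Θ : I1 → I → ℤ)
    (ho : Ovr M M1 π Θ), CLift ho n' h' hA' →
  ∀ w : K, w ^ p - w = ∑ j, zc p K (lam j) * algebraMap L K (f j) →
  TW p M1 (fun j => algebraMap L K (f j)) (fun j i1 => ∑ i, Θ i1 i * n j i)
    (fun t j => algebraMap L K (a (π t) j)) (fun t j => algebraMap L K (h (π t) j))
    (Λ ⊔ Submodule.span (ZMod p) {lam}) (fun t => insert (j0 (π t)) (R (π t)))

/-- ISO: transport. -/
def WT_iso : Prop := ∀ (p : ℕ) [Fact p.Prime] (k L K : Type u) [Field k] [Field L] [Field K]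
  [Algebra k L] [Algebra k K] [Algebra L K] [IsScalarTower k L K] [CharP L p] [CharP K p],
  Function.Surjective (algebraMap L K) →
  ∀ (T I ι G : Type) [Finite T] [Fintype I] [Fintype ι]
  (M : LM (⊥ : Subalgebra k L) ⊤ T I) (f : ι → L) (n : ι → I → ℤ) (a h : T → ι → L)
  (Λ : Submodule (ZMod p) (ι → ZMod p)) (R : T → Set ι) (g : G → L) (Γ : G → I → ℤ),
  TW p M f n a h Λ R → Fn M g Γ → Frc M →
  ∃ M' : LM (⊥ : Subalgebra k K) ⊤ T I,
    TW p M' (fun j => algebraMap L K (f j)) n (fun t j => algebraMap L K (a t j))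
      (fun t j => algebraMap L K (h t j)) Λ R ∧
    Fn M' (fun b => algebraMap L K (g b)) Γ ∧ Frc M'

/-! ## Quotients -/

/-- FAC: cyclic covers of degree `p` or `1` of a rational surface. -/
def WT_fac : Prop := ∀ (p : ℕ) [Fact p.Prime] (k A K : Type u) [Field k] [CharP k p] [CommRing A]
  [IsDomain A] [Algebra k A] [Algebra.FiniteType k A] [Field K] [Algebra k K] [Algebra A K]
  [IsScalarTower k A K] [IsFractionRing A K] [CharP K p] (σ : A ≃ₐ[k] A) (s : K ≃ₐ[k] K),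
  (∀ a, s (algebraMap A K a) = algebraMap A K (σ a)) → σ ^ p = 1 →
  Nonempty (FractionRing (fixA σ) ≃ₐ[k] FractionRing (MvPolynomial (Fin 2) k)) →
  ∃ (x : Fin 2 → K) (z : K) (e : ZMod p) (P Q : MvPolynomial (Fin 2) k) (S : Finset A),
    AlgebraicIndependent k x ∧ (∀ c, s (x c) = x c) ∧ s z = z + zc p K e ∧ (e = 0 → z = 0) ∧
    Q ≠ 0 ∧ z ^ p - z = MvPolynomial.aeval x P / MvPolynomial.aeval x Q ∧
    IntermediateField.adjoin k (insert z (Set.range x)) = ⊤ ∧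
    (∀ a ∈ S, σ a = a ∧ ∃ F H : MvPolynomial (Fin 2) k, F ≠ 0 ∧ H ≠ 0 ∧
      algebraMap A K a = MvPolynomial.aeval x F / MvPolynomial.aeval x H) ∧
    ∀ a : A, IsIntegral (Algebra.adjoin k (S : Set A)) a

/-- IND: algebraic independence in tensor products. -/
def WT_ind : Prop := ∀ (k : Type u) [Field k] (m n : ℕ) (A K : Fin n → Type u)
  [∀ i, CommRing (A i)] [∀ i, IsDomain (A i)] [∀ i, Algebra k (A i)] [∀ i, Field (K i)]
  [∀ i, Algebra k (K i)] [∀ i, Algebra (A i) (K i)] [∀ i, IsScalarTower k (A i) (K i)]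
  [∀ i, IsFractionRing (A i) (K i)] (E : Type u) [Field E] [Algebra k E]
  (g : (⨂[k] i, A i) →ₐ[k] E) (e : ∀ i, K i →ₐ[k] E), Function.Injective g →
  (∀ i a, e i (algebraMap (A i) (K i) a) = g (PiTensorProduct.singleAlgHom (R := k) (A := A) i a)) →
  ∀ x : ∀ i, Fin m → K i, (∀ i, AlgebraicIndependent k (x i)) →
  AlgebraicIndependent k (fun q : Fin n × Fin m => e q.1 (x q.1 q.2))

/-- GAL: the fixed field. -/
def WT_gal : Prop := ∀ (p : ℕ) [Fact p.Prime] (k E : Type u) [Field k] [Field E] [Algebra k E]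
  [CharP E p] (n : ℕ) (L0 : IntermediateField k E) (z : Fin n → E) (e : Fin n → ZMod p)
  (τ : (Fin n → ZMod p) → E ≃ₐ[k] E) (G : AddSubgroup (Fin n → ZMod p)),
  (∀ i, z i ^ p - z i ∈ L0) → IntermediateField.adjoin L0 (Set.range z) = ⊤ →
  (∀ g, ∀ x ∈ L0, τ g x = x) → (∀ g i, τ g (z i) = z i + zc p E (e i * g i)) →
  (∀ i, e i = 0 → z i = 0) →
  ∀ y : E, (∀ g ∈ G, τ g y = y) →
  y ∈ IntermediateField.adjoin L0 {w | ∃ c : Fin n → ZMod p,
    (∀ g ∈ G, ∑ i, c i * (e i * g i) = 0) ∧ w = ∑ i, zc p E (c i) * z i}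

/-- FRI: fractions of invariants. -/
def WT_fri : Prop := ∀ (k B E : Type u) [Field k] [CommRing B] [IsDomain B] [Algebra k B]
  [Field E] [Algebra k E] [Algebra B E] [IsScalarTower k B E] [IsFractionRing B E] (Γ : Type)
  [AddCommGroup Γ] [Finite Γ] (s : Γ → B ≃ₐ[k] B) (τ : Γ → E ≃ₐ[k] E),
  (∀ g g' b, s (g + g') b = s g (s g' b)) →
  (∀ g b, τ g (algebraMap B E b) = algebraMap B E (s g b)) →
  ∀ y : E, (∀ g, τ g y = y) →
  ∃ a b : B, (∀ g, s g a = a) ∧ (∀ g, s g b = b) ∧ b ≠ 0 ∧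
    y * algebraMap B E b = algebraMap B E a

/-- ART: the lemma of Artin and Tate. -/
def WT_art : Prop := ∀ (k B : Type u) [Field k] [CommRing B] [Algebra k B]
  [Algebra.FiniteType k B] (A : Subalgebra k B), (∀ b : B, IsIntegral A b) →
  Algebra.FiniteType k A

end Pool.Agent.W558
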