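import Pool.Agent.W558.WA.All
import Pool.Agent.W33.WT.Pas
import Pool.Agent.W369.WT.Bun
import Pool.Agent.W369.WT.PCut
import Pool.Agent.W405.WT.PBL
import Pool.Agent.W368.WT.Tbl
import Pool.Agent.W356.WT.Ppr
import Pool.Agent.W356.WT.Nas
import Pool.Agent.W29.WT.Init
import Pool.Agent.W32.WT.Nxt
import Pool.Agent.W906.WT.Iso
import Pool.Agent.W191.WT.Fac
import Pool.Agent.W410.WT.Ind
import Pool.Agent.W435.WT.Gal
import Pool.Agent.W376.WT.Fri
import Pool.Agent.W382.WT.Art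

set_option autoImplicit false

universe u

namespace Pool.Agent.W558

theorem wt_pas : WT_pas.{u} := Pool.Agent.W33.WT.Pas.main
theorem wt_bun : WT_bun.{u} := Pool.Agent.W369.WT.bun_main wd_norm
theorem wt_pbl : WT_pbl.{u} := Pool.Agent.W405.WT.PBL.main
theorem wt_tbl : WT_tbl.{u} := Pool.Agent.W368.WT.Tbl.main
theorem wt_ppr : WT_ppr.{u} := Pool.Agent.W356.WT.Ppr.main wa_cp wt_pas wt_pbl wt_tbl
theorem wt_pcut : WT_pcut.{u} := Pool.Agent.W369.WT.pcut_main wt_pas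
theorem wt_init : WT_init.{u} := Pool.Agent.W29.WT.Init.main wa_ovp
theorem wt_nas : WT_nas.{u} := Pool.Agent.W356.WT.Nas.main
theorem wt_nxt : WT_nxt.{u} := Pool.Agent.W32.WT.main
theorem wt_iso : WT_iso.{u} := Pool.Agent.W906.WT.Iso.main
theorem wt_fac : WT_fac.{u} := Pool.Agent.W191.WT.main
theorem wt_ind : WT_ind.{u} := Pool.Agent.W410.WT.main
theorem wt_gal : WT_gal.{u} := Pool.Agent.W435.WT.Gal.main
theorem wt_fri : WT_fri.{u} := Pool.Agent.W376.WT.main
theorem wt_art : WT_art.{u} := Pool.Agent.W382.WT.Art.main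

end Pool.Agent.W558
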