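import Pool.Agent.W558.WT.Stms

set_option autoImplicit false
set_option linter.unusedVariables false
set_option linter.unusedSectionVars false

universe u

namespace Pool.Agent.W558

theorem wt_tn : WT_tn.{u} := by
  intro p _ k L _ _ _ _ T I ι _ _ _ M f n a h Λ R hW lam hlam
  classical
  choose μ hμΛ hμR using fun t => hW.rep t lam
  have hlr0 : ∀ t, ∃ l, (lam - μ t) l ≠ 0 := by
    intro t
    by_contra hcon
    push Not at hcon
    apply hlam
    have h1 : lam = μ t := by
      funext l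
      exact sub_eq_zero.1 (hcon l)
    rw [h1]
    exact hμΛ t
  have hmin : ∀ t (s : Finset ι), s.Nonempty → ∃ j ∈ s, ∀ l ∈ s, ∀ i, n j i ≤ n l i ∨
      (M.x t i)⁻¹ ∈ M.A t := by
    intro t s hs
    induction hs using Finset.Nonempty.cons_induction with
    | singleton j =>
      refine ⟨j, Finset.mem_singleton_self j, fun l hl i => ?_⟩
      rw [Finset.mem_singleton.1 hl]
      exact Or.inl le_rfl
    | cons j s hj hs ih =>
      obtain ⟨l0, hl0, h0⟩ := ih
      rcases hW.cmp t j l0 with h1 | h1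
      · refine ⟨j, Finset.mem_cons_self j s, fun l hl i => ?_⟩
        rcases Finset.mem_cons.1 hl with rfl | hl
        · exact Or.inl le_rfl
        · rcases h1 i with h2 | h2
          · rcases h0 l hl i with h3 | h3
            · exact Or.inl (h2.trans h3)
            · exact Or.inr h3
          · exact Or.inr h2
      · refine ⟨l0, Finset.mem_cons.2 (Or.inr hl0), fun l hl i => ?_⟩
        rcases Finset.mem_cons.1 hl with rfl | hl
        · exact h1 i
        · exact h0 l hl i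
  have hj : ∀ t, ∃ j, (lam - μ t) j ≠ 0 ∧ ∀ l, (lam - μ t) l ≠ 0 → ∀ i, n j i ≤ n l i ∨
      (M.x t i)⁻¹ ∈ M.A t := by
    intro t
    obtain ⟨l0, hl0⟩ := hlr0 t
    obtain ⟨j, hj, h1⟩ := hmin t (Finset.univ.filter fun l => (lam - μ t) l ≠ 0)
      ⟨l0, Finset.mem_filter.2 ⟨Finset.mem_univ _, hl0⟩⟩
    exact ⟨j, (Finset.mem_filter.1 hj).2, fun l hl =>
      h1 l (Finset.mem_filter.2 ⟨Finset.mem_univ _, hl⟩)⟩
  choose j0 hj0 hle using hj
  have hR0 : ∀ t, ∀ j ∈ R t, (lam - μ t) j = 0 := fun t j hj => by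
    rw [Pi.sub_apply, hμR t j hj, sub_self]
  have key : ∀ t t' i, (M.x t i)⁻¹ ∉ M.A t → (M.x t' i)⁻¹ ∉ M.A t' →
      n (j0 t') i ≤ n (j0 t) i := by
    intro t t' i ht ht'
    have h1 : ∀ l, (lam - μ t') l = (lam - μ t) l + (μ t - μ t') l := by
      intro l
      simp only [Pi.sub_apply]
      ring
    have h2 : ∀ l, (lam - μ t') l ≠ 0 → n (j0 t') i ≤ n l i := fun l hl =>
      (hle t' l hl i).resolve_right ht'
    by_cases hν : μ t - μ t' = 0
    · apply h2
      rw [h1, hν, Pi.zero_apply, add_zero]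
      exact hj0 t
    · obtain ⟨j, hjR, hj1, hj2⟩ := hW.ech t (μ t - μ t') (Λ.sub_mem (hμΛ t) (hμΛ t')) hν
      have h3 : (lam - μ t') j ≠ 0 := by
        rw [h1, hR0 t j hjR, zero_add]
        exact hj1
      by_cases h4 : (μ t - μ t') (j0 t) = 0
      · apply h2
        rw [h1, h4, add_zero]
        exact hj0 t
      · exact (h2 j h3).trans ((hj2 _ h4 i).resolve_right ht)
  let n' : I → ℤ := fun i => if H : ∃ t, (M.x t i)⁻¹ ∉ M.A t then n (j0 H.choose) i else 0
  have hn' : ∀ t i, n' i = n (j0 t) i ∨ (M.x t i)⁻¹ ∈ M.A t := by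
    intro t i
    by_cases ht : (M.x t i)⁻¹ ∈ M.A t
    · exact Or.inr ht
    · left
      have H : ∃ t, (M.x t i)⁻¹ ∉ M.A t := ⟨t, ht⟩
      have h1 : n' i = n (j0 H.choose) i := dif_pos H
      rw [h1]
      exact le_antisymm (key _ _ _ ht H.choose_spec) (key _ _ _ H.choose_spec ht)
  refine ⟨n', fun t => ∑ l, zc p L ((lam - μ t) l) *
    ((∏ i, M.x t i ^ (n l i - n' i)) * h t l), fun t => lam - μ t, j0,
    ⟨fun t => ?_, hR0, hj0, hle, hn', ?_, fun t => rfl⟩⟩
  · rw [sub_sub_cancel]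
    exact hμΛ t
  · intro i
    change (if H : ∃ t, (M.x t i)⁻¹ ∉ M.A t then n (j0 H.choose) i else 0) ≤ 0
    split_ifs
    · exact hW.n0 _ _
    · exact le_rfl

end Pool.Agent.W558
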