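import Pool.Agent.W558.WT.Quot
import Pool.Agent.W558.WT.All
import Pool.Agent.W558.WT.Tn

set_option autoImplicit false

universe u

namespace Pool.Agent.W558

theorem wt_pack : WTPack.{u} :=
  ⟨wa_irr, wt_bun, wt_ppr, wt_pcut, wt_init, wt_tn, wt_nas, wt_nxt, wt_iso⟩

theorem ws_pack : WSPack.{u} := ⟨wa_gin, wa_gir, wa_loc, wa_prod⟩

theorem wq_pack : WQPack.{u} := ⟨wt_fac, wt_ind, wt_gal, wt_fri, wt_art⟩

end Pool.Agent.W558
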