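import Pool.Agent.W558.WA.Asm1
import Pool.Agent.W558.WT.Stms

set_option autoImplicit false
set_option linter.unusedVariables false
set_option linter.unusedSectionVars false

universe u

open Polynomial TensorProduct

namespace Pool.Agent.W558

/-- The field `L` has a model on which the functions `f j` have a normal form as in a tower of
Artin-Schreier extensions and the functions `g b` are locally monomials. -/
def GMT (p : ℕ) (k : Type u) {L : Type u} [Field k] [Field L] [Algebra k L] [CharP L p]
    {ι G : Type} [Fintype ι] (f : ι → L) (g : G → L) : Prop :=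
  ∃ (T I : Type) (_ : Finite T) (_ : Fintype I) (M : LM (⊥ : Subalgebra k L) ⊤ T I)
    (n : ι → I → ℤ) (a h : T → ι → L) (Λ : Submodule (ZMod p) (ι → ZMod p)) (R : T → Set ι)
    (Γ : G → I → ℤ), TW p M f n a h Λ R ∧ Fn M g Γ ∧ Frc M

theorem frob_fixed0 {K : Type u} [Field K] (p : ℕ) [Fact p.Prime] [CharP K p] (w : K)
    (hw : w ^ p = w) : ∃ i : ℕ, w = i := by
  classical
  have hp : p.Prime := Fact.out
  by_contra hcon
  push Not at hcon
  let r : K[X] := X ^ p - X
  have hd : r.natDegree = p := FiniteField.X_pow_card_sub_X_natDegree_eq K hp.one_lt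
  have hr0 : r ≠ 0 := by
    intro h
    rw [h, natDegree_zero] at hd
    exact hp.ne_zero hd.symm
  have hsub : insert w ((Finset.range p).image fun i : ℕ => (i : K)) ⊆ r.roots.toFinset := by
    intro y hy
    rw [Multiset.mem_toFinset, mem_roots hr0, IsRoot.def]
    rw [Finset.mem_insert, Finset.mem_image] at hy
    rcases hy with rfl | ⟨i, -, rfl⟩
    · simp [r, hw]
    · have h1 : ((i : ℕ) : K) ^ p = i := by
        have h2 : ((i : ZMod p)) ^ p = i := ZMod.pow_card _
        have h3 := congrArg (ZMod.castHom (dvd_refl p) K) h2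
        rw [map_pow, map_natCast] at h3
        exact h3
      simp [r, h1]
  have hcard := Finset.card_le_card hsub
  have h2 : (insert w ((Finset.range p).image fun i : ℕ => (i : K))).card = p + 1 := by
    rw [Finset.card_insert_of_notMem, Finset.card_image_of_injOn, Finset.card_range]
    · intro i hi j hj hij
      simp only [Finset.coe_range, Set.mem_Iio] at hi hj
      exact CharP.natCast_injOn_Iio K p hi hj hij
    · intro h
      rw [Finset.mem_image] at h
      obtain ⟨i, -, hi⟩ := h
      exact hcon i hi.symm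
  have h3 : r.roots.toFinset.card ≤ p := by
    refine (Multiset.toFinset_card_le _).trans ?_
    exact (card_roots' r).trans hd.le
  omega

/-- The statements used for the towers. -/
structure WTPack : Prop where
  irr : WA_irr.{u}
  bun : WT_bun.{u}
  ppr : WT_ppr.{u}
  pcut : WT_pcut.{u}
  init : WT_init.{u}
  tn : WT_tn.{u}
  nas : WT_nas.{u}
  nxt : WT_nxt.{u}
  iso : WT_iso.{u}

section step

variable (hall : WTPack.{u}) (p : ℕ) [Fact p.Prime] (k : Type u) [Field k] [PerfectField k]
  [CharP k p]

include hall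

/-- One Artin-Schreier extension. -/
theorem wt_step (L K : Type u) [Field L] [Field K]
    [Algebra k L] [Algebra k K] [Algebra L K] [IsScalarTower k L K] [CharP L p] [CharP K p]
    {T I ι G : Type} [Finite T] [Fintype I] [Fintype ι]
    (M : LM (⊥ : Subalgebra k L) ⊤ T I) (f : ι → L) (n : ι → I → ℤ) (a h : T → ι → L)
    (Λ : Submodule (ZMod p) (ι → ZMod p)) (R : T → Set ι) (g : G → L) (Γ : G → I → ℤ)
    (hT : TW p M f n a h Λ R) (hR : Frc M) (hG : Fn M g Γ) (lam : ι → ZMod p) (hlam : lam ∉ Λ)
    (hf : ∀ b : L, b ^ p - b ≠ ∑ j, zc p L (lam j) * f j) (z : K)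
    (hz : z ^ p - z = algebraMap L K (∑ j, zc p L (lam j) * f j))
    (hz1 : z ^ p - z = ∑ j, zc p K (lam j) * algebraMap L K (f j))
    (hgen : ∀ w : K, ∃ P : L[X], aeval z P = w) :
    GMT p k (fun j => algebraMap L K (f j)) (fun b => algebraMap L K (g b)) := by
  have hp : p.Prime := Fact.out
  obtain ⟨n', h', lr, j0, hTN⟩ := hall.tn p k L T I ι M f n a h Λ R hT lam hlam
  obtain ⟨a', hN⟩ := hall.nas p k L T I ι M f n a h Λ R hT lam n' h' lr j0 hTN
  set f' : L := ∑ j, zc p L (lam j) * f j with hf'
  have hirr : Irreducible (X ^ p - X - C f' : L[X]) := hall.irr p L f' hf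
  have hF : Prime (X ^ p - X - C f' : L[X]) := hirr.prime
  have hz0 : aeval z (X ^ p - X - C f' : L[X]) = 0 := by
    rw [map_sub, map_sub, map_pow, aeval_X, aeval_C, hz, sub_self]
  have hmon : (X ^ p - X - C f' : L[X]).Monic := by
    have h1 : (X ^ p - X - C f' : L[X]) = X ^ p - (X + C f') := by ring
    rw [h1]
    apply monic_X_pow_sub
    rw [degree_X_add_C]
    exact_mod_cast hp.one_lt
  have hz' : ∀ P : L[X], aeval z P = 0 ↔ (X ^ p - X - C f' : L[X]) ∣ P := by
    intro P
    have h1 : minpoly L z = X ^ p - X - C f' :=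
      (minpoly.eq_of_irreducible_of_monic hirr hz0 hmon).symm
    rw [← h1]
    exact (minpoly.dvd_iff).symm
  let N := FractionRing L[X]
  let Z : N := algebraMap L[X] N X
  have hZ : ∀ P : L[X], aeval Z P = algebraMap L[X] N P := by
    intro P
    have h1 : aeval Z = IsScalarTower.toAlgHom L L[X] N := by
      ext; simp [Z]
    rw [h1]; rfl
  have htr : Transcendental L Z := by
    rw [transcendental_iff]
    intro P hP
    rw [hZ] at hP
    exact (FaithfulSMul.algebraMap_eq_zero_iff L[X] N).1 hP
  have hfr : ∀ x : N, ∃ P P' : L[X], P' ≠ 0 ∧ x * aeval Z P' = aeval Z P := by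
    intro x
    obtain ⟨P, P', hP, rfl⟩ := IsFractionRing.div_surjective (A := L[X]) x
    have h0 := nonZeroDivisors.ne_zero hP
    refine ⟨P, P', h0, ?_⟩
    rw [hZ, hZ, div_mul_cancel₀ _ (alg_ne_zero h0)]
  have hQ : IsQA p Z f' (FQ (k := k) hF) := by
    intro x
    simp only [hZ]
    exact mem_FQ hF
  obtain ⟨T1, I1, hT1, hI1, M1, y1, c1, μ1, Γ1, hP1, hL1, hF1⟩ :=
    hall.bun p k L N T I G M f' n' a' h' g Γ hN hR hG hf Z htr hfr (FQ (k := k) hF) hQ
  obtain ⟨T2, I2, hT2, hI2, M2, y2, c2, μ2, Γ2, hP2, hL2, hF2, hfin⟩ :=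
    hall.ppr p k L N T I T1 I1 G M f' n' a' h' M1 _ (FQ (k := k) hF) y1 c1 μ1
      (fun b => algebraMap L N (g b)) Γ1 hN hP1 hL1 hF1
  have eF : Z ^ p - Z - algebraMap L N f' = algebraMap L[X] N (X ^ p - X - C f') := by
    rw [← hZ, map_sub, map_sub, map_pow, aeval_X, aeval_C]
  rw [eF] at hP2
  obtain ⟨T3, I3, hT3, hI3, M3, π', Θ', ho, Γ3, hCL, hF3, hR3⟩ :=
    hall.pcut p k L N K T I T2 I2 G M f' n' a' h' M2 _ (FQ (k := k) hF) y2 c2 μ2 g Γ2
      hN hP2 hL2 hF2 hfin (mem_FQ_of hF) (alg_ne_zero hF.ne_zero) (piZ hF z hz')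
      (piZ_eq_zero hF z hz') (piZ_surj hF z hz' hgen) (FQ_total hF) (by
        intro l hl
        have h1 : algebraMap L N l = algebraMap L[X] N (C l) := by
          rw [← hZ, aeval_C]
        have h2 : (⟨algebraMap L N l, hl⟩ : FQ (k := k) hF) =
            ⟨algebraMap L[X] N (C l), mem_FQ_of hF⟩ := Subtype.ext h1
        rw [h2, piZ_alg, aeval_C])
  have hTW := hall.nxt p k L K T I T3 I3 ι M f n a h Λ R hT lam n' h' lr j0 hTN hN.hA M3 π' Θ' ho
    hCL z hz1
  exact ⟨T3, I3, hT3, hI3, M3, _, _, _, _, _, Γ3, hTW, hF3, hR3⟩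

omit hall [PerfectField k] [CharP k p] in
/-- Artin-Schreier elements of the prime field. -/
lemma zc_of_pow {K : Type u} [Field K] [CharP K p] (w : K) (hw : w ^ p = w) :
    ∃ c : ZMod p, w = zc p K c := by
  obtain ⟨i, hi⟩ := frob_fixed0 p w hw
  exact ⟨i, by rw [map_natCast]; exact hi⟩

omit hall [PerfectField k] [CharP k p] in
lemma zc_pow {K : Type u} [Field K] [CharP K p] (c : ZMod p) : zc p K c ^ p = zc p K c := by
  rw [← map_pow, ZMod.pow_card]

omit hall [PerfectField k] [CharP k p] in
lemma alg_zc {L K : Type u} [Field L] [Field K] [Algebra L K] [CharP L p] [CharP K p]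
    (c : ZMod p) : algebraMap L K (zc p L c) = zc p K c := by
  have h : (algebraMap L K).comp (zc p L) = zc p K := RingHom.ext_zmod _ _
  exact congrArg (fun φ : ZMod p →+* K => φ c) h

/-- One step of a tower. -/
theorem gmt_step (L K : Type u) [Field L] [Field K]
    [Algebra k L] [Algebra k K] [Algebra L K] [IsScalarTower k L K] [CharP L p] [CharP K p]
    {ι G : Type} [Fintype ι] (f : ι → L) (g : G → L) (hM : GMT p k f g) (lam : ι → ZMod p)
    (z : K) (hz : z ^ p - z = ∑ j, zc p K (lam j) * algebraMap L K (f j))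
    (hgen : IntermediateField.adjoin L {z} = ⊤) :
    GMT p k (fun j => algebraMap L K (f j)) (fun b => algebraMap L K (g b)) := by
  have hp : p.Prime := Fact.out
  obtain ⟨T, I, hT, hI, M, n, a, h, Λ, R, Γ, hW, hF, hR⟩ := hM
  have hzf : z ^ p - z = algebraMap L K (∑ j, zc p L (lam j) * f j) := by
    rw [hz, map_sum]
    refine Finset.sum_congr rfl fun j _ => ?_
    rw [map_mul, alg_zc]
  by_cases hzL : ∃ b : L, b ^ p - b = ∑ j, zc p L (lam j) * f j
  · obtain ⟨b, hb⟩ := hzL
    have h1 : (z - algebraMap L K b) ^ p = z - algebraMap L K b := by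
      rw [sub_pow_char]
      have h2 : algebraMap L K b ^ p - algebraMap L K b = z ^ p - z := by
        rw [← map_pow, ← map_sub, hb, hzf]
      linear_combination -h2
    obtain ⟨c, hc⟩ := zc_of_pow p _ h1
    have h2 : z = algebraMap L K (b + zc p L c) := by
      rw [map_add, alg_zc]
      linear_combination hc
    have h3 : Function.Surjective (algebraMap L K) := by
      have h4 : IntermediateField.adjoin L {z} = ⊥ := by
        rw [IntermediateField.adjoin_simple_eq_bot_iff, h2]
        exact IntermediateField.algebraMap_mem _ _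
      rw [h4] at hgen
      intro y
      have h5 : y ∈ (⊤ : IntermediateField L K) := trivial
      rw [← hgen] at h5
      exact IntermediateField.mem_bot.1 h5
    obtain ⟨M', h4, h5, h6⟩ := hall.iso p k L K h3 T I ι G M f n a h Λ R g Γ hW hF hR
    exact ⟨T, I, hT, hI, M', _, _, _, _, _, Γ, h4, h5, h6⟩
  · push Not at hzL
    have hlam : lam ∉ Λ := by
      intro hl
      obtain ⟨w, hw⟩ := hW.wl lam hl
      exact hzL w hw
    refine wt_step hall p k L K M f n a h Λ R g Γ hW hR hF lam hlam hzL z hzf hz ?_
    intro y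
    have hint : IsIntegral L z := by
      refine ⟨X ^ p - (X + C (∑ j, zc p L (lam j) * f j)), ?_, ?_⟩
      · apply monic_X_pow_sub
        rw [degree_X_add_C]
        exact_mod_cast hp.one_lt
      · rw [← aeval_def, map_sub, map_add, map_pow, aeval_X, aeval_C, ← hzf]
        ring
    have h8 : y ∈ Algebra.adjoin L {z} := by
      have h9 : y ∈ (IntermediateField.adjoin L {z}).toSubalgebra := by
        rw [hgen]; trivial
      rwa [IntermediateField.adjoin_simple_toSubalgebra_of_isAlgebraic hint.isAlgebraic] at h9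
    rw [Algebra.adjoin_singleton_eq_range_aeval] at h8
    exact h8

/-- Towers. -/
theorem gmt_tower {ι G : Type} [Fintype ι] : ∀ (r : ℕ) (L K : Type u) [Field L] [Field K]
    [Algebra k L] [Algebra k K] [Algebra L K] [IsScalarTower k L K] [CharP L p] [CharP K p]
    (f : ι → L) (g : G → L), GMT p k f g → ∀ (w : Fin r → K) (lam : Fin r → ι → ZMod p),
    (∀ j, w j ^ p - w j = ∑ l, zc p K (lam j l) * algebraMap L K (f l)) →
    IntermediateField.adjoin L (Set.range w) = ⊤ →
    GMT p k (fun j => algebraMap L K (f j)) (fun b => algebraMap L K (g b)) := by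
  have hp : p.Prime := Fact.out
  intro r
  induction r with
  | zero =>
    intro L K _ _ _ _ _ _ _ _ f g hM w lam hw hgen
    refine gmt_step hall p k L K f g hM 0 0 ?_ ?_
    · rw [zero_pow hp.ne_zero, sub_zero]
      symm
      refine Finset.sum_eq_zero fun j _ => ?_
      rw [Pi.zero_apply, map_zero, zero_mul]
    · rw [Set.range_eq_empty, IntermediateField.adjoin_empty] at hgen
      rw [IntermediateField.adjoin_zero, hgen]
  | succ r ih =>
    intro L K _ _ _ _ _ _ _ _ f g hM w lam hw hgen
    let L1 := IntermediateField.adjoin L {w 0}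
    have hL1 : CharP L1 p := charP_of_injective_algebraMap (algebraMap L L1).injective p
    have tL1 : IsScalarTower k L1 K := IsScalarTower.of_algebraMap_eq fun c => rfl
    let z : L1 := ⟨w 0, IntermediateField.mem_adjoin_simple_self L (w 0)⟩
    have hM1 : GMT p k (fun j => algebraMap L L1 (f j)) (fun b => algebraMap L L1 (g b)) := by
      refine gmt_step hall p k L L1 f g hM (lam 0) z ?_ ?_
      · apply Subtype.ext
        have h1 := hw 0
        have h2 : ((∑ j, zc p L1 (lam 0 j) * algebraMap L L1 (f j) : L1) : K) =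
            ∑ l, zc p K (lam 0 l) * algebraMap L K (f l) := by
          change algebraMap L1 K _ = _
          rw [map_sum]
          refine Finset.sum_congr rfl fun j _ => ?_
          rw [map_mul, alg_zc]
          rfl
        rw [h2, ← h1]
        rfl
      · apply IntermediateField.lift_injective L1
        rw [IntermediateField.lift_adjoin_simple, IntermediateField.lift_top]
    have h2 := ih L1 K (fun j => algebraMap L L1 (f j)) (fun b => algebraMap L L1 (g b)) hM1
      (fun j => w j.succ) (fun j => lam j.succ) (fun j => hw j.succ) (by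
        rw [← IntermediateField.restrictScalars_eq_top_iff (K := L),
          IntermediateField.adjoin_adjoin_left, ← hgen]
        congr 1
        ext y
        constructor
        · rintro (hy | ⟨j, rfl⟩)
          · exact ⟨0, hy.symm⟩
          · exact ⟨j.succ, rfl⟩
        · rintro ⟨j, rfl⟩
          refine Fin.cases ?_ (fun j => ?_) j
          · exact Or.inl rfl
          · exact Or.inr ⟨j, rfl⟩)
    exact h2

end step

end Pool.Agent.W558
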