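import Pool.Agent.W558.WT.Asm1
import Pool.Agent.W558.WA.Asm2

set_option autoImplicit false
set_option linter.unusedVariables false
set_option linter.unusedSectionVars false

universe u

open Polynomial AlgebraicGeometry CategoryTheory

namespace Pool.Agent.W558

/-- The statements used for the surfaces. -/
structure WSPack : Prop where
  gin : WA_gin.{u}
  gir : WA_gir.{u}
  loc : WA_loc.{u}
  prod : WA_prod.{u}

section init

variable (hall : WTPack.{u}) {p : ℕ} [Fact p.Prime] {k : Type u} [Field k]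

include hall in
theorem gmt_init {L : Type u} [Field L] [Algebra k L] [CharP L p] {ι G : Type} [Fintype ι]
    {f : ι → L} {g : G → L} (h : GMA p k f g) : GMT p k f g := by
  obtain ⟨T, I, hT, hI, M, n, a, h, Γ, hN, hG, hR⟩ := h
  obtain ⟨T', I', hT', hI', M', π, Θ, n', a', h', hO, hW⟩ := hall.init p k L T I ι M f n a h hN
  exact ⟨T', I', hT', hI', M', n', a', h', ⊥, _, _, hW, hG.ov hO, hR.ov hO⟩

theorem GMT.prod {L : Type u} [Field L] [Algebra k L] [CharP L p] {ι J G : Type} [Fintype ι]
    [Fintype J] {f : ι → L} {g : J × G → L} (h : GMT p k f g) :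
    GMT p k f (fun b => ∏ j, g (j, b)) := by
  obtain ⟨T, I, hT, hI, M, n, a, h, Λ, R, Γ, hN, hG, hR⟩ := h
  exact ⟨T, I, hT, hI, M, n, a, h, Λ, R, _, hN, hG.prod, hR⟩

end init

section main

variable (hall : WTPack.{u}) (hs : WSPack.{u})
  (p : ℕ) [Fact p.Prime] (k K : Type u) [Field k] [PerfectField k] [CharP k p] [Field K]
  [Algebra k K] [CharP K p] (m : ℕ) (x : Fin m → Fin 2 → K)
  (P Q : Fin m → MvPolynomial (Fin 2) k) (r : ℕ) (w : Fin r → K)
  (lam : Fin r → Fin m → ZMod p)

include hall hs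

/-- Models of towers of Artin-Schreier extensions of the field of rational functions in
`2 * m` variables given by sums of functions of two variables each. -/
theorem wt_model (hx : AlgebraicIndependent k (fun q : Fin m × Fin 2 => x q.1 q.2))
    (hQ : ∀ i, Q i ≠ 0)
    (hw : ∀ j, w j ^ p - w j = ∑ i, zc p K (lam j i) *
      (MvPolynomial.aeval (x i) (P i) / MvPolynomial.aeval (x i) (Q i)))
    (hgen : IntermediateField.adjoin k
      (Set.range w ∪ Set.range fun q : Fin m × Fin 2 => x q.1 q.2) = ⊤)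
    (G : Type) [Finite G] (s : G → K) (R S : G → Fin m → MvPolynomial (Fin 2) k)
    (hR : ∀ b i, R b i ≠ 0) (hS : ∀ b i, S b i ≠ 0)
    (hs' : ∀ b, s b = ∏ i, MvPolynomial.aeval (x i) (R b i) / MvPolynomial.aeval (x i) (S b i)) :
    ∃ (T I : Type) (_ : Finite T) (_ : Fintype I) (M : LM (⊥ : Subalgebra k K) ⊤ T I)
      (Γ : G → I → ℤ), Fn M s Γ ∧ Frc M := by
  have hp : p.Prime := Fact.out
  let L := RF k (Fin m × Fin 2)
  let E := RF k (Fin 2)
  let _ : Algebra L K := (rsub hx).toRingHom.toAlgebra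
  have tL : IsScalarTower k L K := IsScalarTower.of_algebraMap_eq fun c =>
    ((rsub hx).commutes c).symm
  have hcL : CharP L p := charP_of_injective_algebraMap (algebraMap k L).injective p
  let v : Fin m × Fin 2 → L := fun q => algebraMap (MvPolynomial (Fin m × Fin 2) k) L
    (MvPolynomial.X q)
  have hv : Rat (k := k) v := rat_RF _
  have hvi : ∀ i, AlgebraicIndependent k (fun c => v (i, c)) := fun i =>
    hv.ind.comp (fun c => (i, c)) (Prod.mk_right_injective i)
  have hLK : ∀ y : L, algebraMap L K y = rsub hx y := fun y => rfl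
  have hval : ∀ (i : Fin m) (A : MvPolynomial (Fin 2) k),
      algebraMap L K (rsub (hvi i) (algebraMap (MvPolynomial (Fin 2) k) E A)) =
        MvPolynomial.aeval (x i) A := by
    intro i A
    have hxi : AlgebraicIndependent k (fun c => x i c) :=
      hx.comp (fun c => (i, c)) (Prod.mk_right_injective i)
    rw [hLK, rsub_rsub (hvi i) (rsub hx) hxi (fun c => rsub_X hx (i, c)), rsub_algebraMap]
  let f : Fin m → E := fun i => algebraMap (MvPolynomial (Fin 2) k) E (P i) /
    algebraMap (MvPolynomial (Fin 2) k) E (Q i)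
  let c : Fin m → G → E := fun i b => algebraMap (MvPolynomial (Fin 2) k) E (R b i) /
    algebraMap (MvPolynomial (Fin 2) k) E (S b i)
  have hne : ∀ A : MvPolynomial (Fin 2) k, A ≠ 0 →
      algebraMap (MvPolynomial (Fin 2) k) E A ≠ 0 := fun A hA =>
    (FaithfulSMul.algebraMap_eq_zero_iff _ _).not.2 hA
  have hc : ∀ i b, c i b ≠ 0 := fun i b => div_ne_zero (hne _ (hR b i)) (hne _ (hS b i))
  have hGM := gma_family (p := p) hs.prod G
    (fun f c hc => gma_plane hs.gin hs.gir hs.loc p k G f c hc) (Fin m) L v hv f c hc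
  have hGT := (gmt_init hall hGM).prod
  have hfK : ∀ i, algebraMap L K (rsub (hvi i) (f i)) =
      MvPolynomial.aeval (x i) (P i) / MvPolynomial.aeval (x i) (Q i) := by
    intro i
    rw [map_div₀, map_div₀, hval, hval]
  have htop : IntermediateField.adjoin L (Set.range w) = ⊤ := by
    rw [eq_top_iff]
    intro y _
    have hy : y ∈ IntermediateField.adjoin k
      (Set.range w ∪ Set.range fun q : Fin m × Fin 2 => x q.1 q.2) := by
      rw [hgen]; trivial
    have hle : IntermediateField.adjoin k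
      (Set.range w ∪ Set.range fun q : Fin m × Fin 2 => x q.1 q.2) ≤
        (IntermediateField.adjoin L (Set.range w)).restrictScalars k := by
      rw [IntermediateField.adjoin_le_iff]
      rintro y (⟨j, rfl⟩ | ⟨q, rfl⟩)
      · exact IntermediateField.subset_adjoin L _ ⟨j, rfl⟩
      · change x q.1 q.2 ∈ IntermediateField.adjoin L (Set.range w)
        have e1 : x q.1 q.2 = algebraMap L K (v q) := (rsub_X hx q).symm
        rw [e1]
        exact IntermediateField.algebraMap_mem _ _
    exact hle hy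
  obtain ⟨T', I', hT', hI', M', n', a', h', Λ', R', Γ', -, hF', hR'⟩ :=
    gmt_tower hall p k r L K _ _ hGT w lam (by
      intro j
      rw [hw j]
      refine Finset.sum_congr rfl fun i _ => ?_
      exact congrArg _ (hfK i).symm) htop
  refine ⟨T', I', hT', hI', M', Γ', ?_, hR'⟩
  have e : (fun b => algebraMap L K (∏ j, rsub (hvi j) (c j b))) = s := by
    funext b
    rw [hs', map_prod]
    refine Finset.prod_congr rfl fun i _ => ?_
    rw [map_div₀, map_div₀, hval, hval]
  rw [← e]
  exact hF'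

/-- Smooth charts. -/
theorem wt_LM (hx : AlgebraicIndependent k (fun q : Fin m × Fin 2 => x q.1 q.2))
    (hQ : ∀ i, Q i ≠ 0)
    (hw : ∀ j, w j ^ p - w j = ∑ i, zc p K (lam j i) *
      (MvPolynomial.aeval (x i) (P i) / MvPolynomial.aeval (x i) (Q i)))
    (hgen : IntermediateField.adjoin k
      (Set.range w ∪ Set.range fun q : Fin m × Fin 2 => x q.1 q.2) = ⊤)
    (A : Type u) [CommRing A] [IsDomain A] [Algebra k A] [Algebra.FiniteType k A] [Algebra A K]
    [IsScalarTower k A K] [IsFractionRing A K] (S : Finset A)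
    (hS : ∀ a ∈ S, ∃ F H : Fin m → MvPolynomial (Fin 2) k, (∀ i, F i ≠ 0 ∧ H i ≠ 0) ∧
      algebraMap A K a = ∏ i, MvPolynomial.aeval (x i) (F i) / MvPolynomial.aeval (x i) (H i))
    (hA : ∀ a : A, IsIntegral (Algebra.adjoin k (S : Set A)) a) :
    ∃ (T I : Type) (_ : Finite T) (_ : Fintype I),
      Nonempty (LM (IsScalarTower.toAlgHom k A K).range (IsScalarTower.toAlgHom k A K).range
        T I) := by
  classical
  let ρ : A →ₐ[k] K := IsScalarTower.toAlgHom k A K
  have hρ : Function.Injective ρ := IsFractionRing.injective A K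
  obtain ⟨e⟩ : Nonempty ({a // a ∈ S} ≃ Fin S.card) := ⟨S.equivFin⟩
  choose F H hFH hFH' using fun b : Fin S.card => hS (e.symm b).1 (e.symm b).2
  obtain ⟨T, I, hT, hI, M, Γ, hFn, hR⟩ := wt_model hall hs p k K m x P Q r w lam hx hQ hw hgen
    (Fin S.card) (fun b => ρ (e.symm b).1) F H (fun b i => (hFH b i).1) (fun b i => (hFH b i).2)
    (fun b => hFH' b)
  have hfg : ρ.range.FG := by
    have h1 : (⊤ : Subalgebra k A).FG := Algebra.FiniteType.out
    have h2 := h1.map ρ
    rwa [Algebra.map_top] at h2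
  have hint : ∀ y ∈ ρ.range, IsIntegral (Algebra.adjoin k
      (Set.range fun b : Fin S.card => ρ (e.symm b).1)) y := by
    rintro _ ⟨a, rfl⟩
    have h1 : Algebra.adjoin k (Set.range fun b : Fin S.card => ρ (e.symm b).1) =
        (Algebra.adjoin k (S : Set A)).map ρ := by
      rw [AlgHom.map_adjoin]
      congr 1
      ext y
      constructor
      · rintro ⟨b, rfl⟩
        exact ⟨_, (e.symm b).2, rfl⟩
      · rintro ⟨a, ha, rfl⟩
        exact ⟨e ⟨a, ha⟩, by simp⟩
    rw [h1]
    obtain ⟨B, hB, hB'⟩ := hA a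
    let φ : Algebra.adjoin k (S : Set A) →+* (Algebra.adjoin k (S : Set A)).map ρ :=
      { toFun := fun y => ⟨ρ y, ⟨y, y.2, rfl⟩⟩
        map_one' := Subtype.ext (map_one ρ)
        map_mul' := fun y y' => Subtype.ext (map_mul ρ _ _)
        map_zero' := Subtype.ext (map_zero ρ)
        map_add' := fun y y' => Subtype.ext (map_add ρ _ _) }
    refine ⟨B.map φ, hB.map φ, ?_⟩
    rw [eval₂_map]
    have h2 : ((algebraMap ((Algebra.adjoin k (S : Set A)).map ρ) K).comp φ) =
        ρ.toRingHom.comp (algebraMap (Algebra.adjoin k (S : Set A)) A) := RingHom.ext fun y => rfl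
    rw [h2]
    have h3 := congrArg ρ.toRingHom hB'
    rw [hom_eval₂, map_zero] at h3
    exact h3
  have hfr : ∀ y : K, ∃ a ∈ ρ.range, ∃ b ∈ ρ.range, b ≠ 0 ∧ y = a * b⁻¹ := by
    intro y
    obtain ⟨a, b, hb, rfl⟩ := IsFractionRing.div_surjective (A := A) y
    exact ⟨_, ⟨a, rfl⟩, _, ⟨b, rfl⟩, by
      have := nonZeroDivisors.ne_zero hb
      exact (FaithfulSMul.algebraMap_eq_zero_iff A K).not.2 this, div_eq_mul_inv _ _⟩
  obtain ⟨T', I', hT', hI', M', -⟩ := wd_res k K T I (Fin S.card) M
    (fun b => ρ (e.symm b).1) Γ hFn hR ρ.range hfg (fun b => ⟨_, rfl⟩) hint hfr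
  exact ⟨T', I', hT', hI', ⟨M'⟩⟩

end main

end Pool.Agent.W558
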