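import Pool.Agent.W558.WA.Stms

set_option autoImplicit false
set_option linter.unusedVariables false
set_option linter.unusedSectionVars false

universe u

open Polynomial AlgebraicGeometry CategoryTheory Pool.Agent.H920R2

namespace Pool.Agent.W558

section rel

variable {k L N : Type u} [Field k] [Field L] [Field N] [Algebra k L] [Algebra k N] [Algebra L N]
  [IsScalarTower k L N]

/-- The inclusion of a subalgebra of `L` into a subalgebra of `N`. -/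
def ci {A : Subalgebra k L} {A' : Subalgebra k N} (h : ∀ a ∈ A, algebraMap L N a ∈ A') :
    A →ₐ[k] A' :=
  ((IsScalarTower.toAlgHom k L N).comp A.val).codRestrict A' fun a => h a a.2

variable {T T' I I' : Type}

/-- The model `M'` of `N` lies over the model `M` of `L`; the local equations of the boundary of
`M` are monomials in those of `M'`. -/
structure Ovr [Fintype I] [Fintype I'] (M : LM (⊥ : Subalgebra k L) ⊤ T I)
    (M' : LM (⊥ : Subalgebra k N) ⊤ T' I') (π : T' → T) (Θ : I' → I → ℤ) : Prop where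
  le : ∀ t', ∀ a ∈ M.A (π t'), algebraMap L N a ∈ M'.A t'
  x : ∀ t' i, algebraMap L N (M.x (π t') i) = ∏ i', M'.x t' i' ^ Θ i' i
  Θ0 : ∀ i' i, 0 ≤ Θ i' i

/-- Logarithmic tangent vectors of `M` can be lifted to `M'` if the logarithmic form
`d (x ^ n * h) / x ^ n` vanishes on them, and all of them outside of the poles. -/
def CLift [Fintype I] [Fintype I'] {M : LM (⊥ : Subalgebra k L) ⊤ T I}
    {M' : LM (⊥ : Subalgebra k N) ⊤ T' I'} {π : T' → T} {Θ : I' → I → ℤ} (ho : Ovr M M' π Θ)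
    (n : I → ℤ) (h : T → L) (hA : ∀ t, h t ∈ M.A t) : Prop :=
  ∀ t' (κ : Type u) [Field κ] [Algebra k κ] (φ' : M'.A t' →ₐ[k] κ)
    (v0 : LT (φ'.comp (ci (ho.le t'))) (M.x (π t'))),
    ((∃ i, n i < 0 ∧ φ' ⟨algebraMap L N (M.x (π t') i), ho.le t' _ (M.xA (π t') i)⟩ = 0) →
      om v0 n (hA (π t')) = 0) →
    ∃ v' : LT φ' (M'.x t'),
      (∀ a (ha : a ∈ M.A (π t')), v'.D.D ⟨algebraMap L N a, ho.le t' a ha⟩ = v0.D.D ⟨a, ha⟩) ∧
      ∀ i, ∑ i', (Θ i' i : κ) * v'.e i' = v0.e i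

/-- Relative version of `PAS`: the model `M` of `N` lies over the model `B` of `L`, and logarithmic
tangent vectors of `B` can be lifted to `M`. -/
structure PAT (p : ℕ) {T0 I0 : Type} [Fintype I0] [Fintype I]
    (B : LM (⊥ : Subalgebra k L) ⊤ T0 I0) (M : LM (⊥ : Subalgebra k N) ⊤ T I) (π : T → T0)
    (Θ : I → I0 → ℤ) (F : N) (Q : Subalgebra k N) (y : T → N) (h0 : T0 → L) (n0 : I0 → ℤ)
    (c μ : I → ℤ) : Prop where
  ov : Ovr B M π Θ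
  hA : ∀ t0, h0 t0 ∈ B.A t0
  ce : ∀ i, c i = ∑ i0, Θ i i0 * n0 i0 - p * μ i
  yA : ∀ t, y t ∈ M.A t
  y0 : ∀ t, y t ≠ 0
  AQ : ∀ t, M.A t ≤ Q
  xQ : ∀ t i, (M.x t i)⁻¹ ∈ Q
  yQ : ∀ t, (y t)⁻¹ ∈ Q
  m0 : ∀ i, μ i ≤ 0
  cp : ∀ i, c i ≤ p
  cm : ∀ i, 0 < c i → μ i < 0
  eq : ∀ t, F = (∏ i, M.x t i ^ ((p : ℤ) * μ i)) *
    (y t ^ p - (∏ i, M.x t i ^ (-((p : ℤ) - 1) * μ i)) * y t -
      (∏ i, M.x t i ^ c i) * algebraMap L N (h0 (π t)))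
  snc : ∀ t, SNC (M.A t) (ox (y t) (M.x t))
  ri : ∀ t i, (M.x t i)⁻¹ ∉ M.A t → (μ i < 0 ∨ c i < 0) →
    (∃ i0, n0 i0 < 0 ∧ 0 < Θ i i0) ∨ (0 < c i ∧ (y t)⁻¹ ∈ M.A t)
  lf : ∀ t (κ : Type u) [Field κ] [Algebra k κ] (φ : M.A t →ₐ[k] κ)
    (v0 : LT (φ.comp (ci (ov.le t))) (B.x (π t))),
    ∃ v : LT φ (ox (y t) (M.x t)),
      (∀ a (ha : a ∈ B.A (π t)), v.D.D ⟨algebraMap L N a, ov.le t a ha⟩ = v0.D.D ⟨a, ha⟩) ∧
      (∀ i0, ∑ i, (Θ i i0 : κ) * v.e (some i) = v0.e i0) ∧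
      v.e none + ∑ i, (μ i : κ) * v.e (some i) = 0
  vt : ∀ t (κ : Type u) [Field κ] [Algebra k κ] (φ : M.A t →ₐ[k] κ), (y t)⁻¹ ∈ M.A t ∨
    ∃ D : TV φ, D.D ⟨y t, yA t⟩ ≠ 0 ∧ (∀ i, D.D ⟨M.x t i, M.xA t i⟩ = 0) ∧
      ∀ a (ha : a ∈ B.A (π t)), D.D ⟨algebraMap L N a, ov.le t a ha⟩ = 0
  vl : ∀ t (κ : Type u) [Field κ] [Algebra k κ] (φ : M.A t →ₐ[k] κ),
    ∃ v : LT φ (ox (y t) (M.x t)),
      (∀ a (ha : a ∈ B.A (π t)), v.D.D ⟨algebraMap L N a, ov.le t a ha⟩ = 0) ∧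
      (∀ i0, ∑ i, (Θ i i0 : κ) * v.e (some i) = 0) ∧
      v.e none + ∑ i, (μ i : κ) * v.e (some i) = 1

/-- `PAT` without the data of the map to `B`. -/
def PAX (p : ℕ) {T0 I0 : Type} [Fintype I0] [Fintype I]
    (B : LM (⊥ : Subalgebra k L) ⊤ T0 I0) (M : LM (⊥ : Subalgebra k N) ⊤ T I) (F : N)
    (Q : Subalgebra k N) (y : T → N) (h0 : T0 → L) (n0 : I0 → ℤ) (c μ : I → ℤ) : Prop :=
  ∃ (π : T → T0) (Θ : I → I0 → ℤ), PAT p B M π Θ F Q y h0 n0 c μ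

end rel

section tw

variable {k L : Type u} [Field k] [Field L] [Algebra k L] {T I : Type}

/-- The prime field in `L`. -/
noncomputable def zc (p : ℕ) (L : Type u) [Field L] [CharP L p] : ZMod p →+* L :=
  ZMod.castHom (dvd_refl p) L

/-- Normal form of the functions `f j` in a tower of Artin-Schreier extensions: `Λ` consists of
linear combinations with coefficients in the prime field which are of the form `w ^ p - w`; on the
chart `t` each of them has its worst poles at some `j ∈ R t`, and the logarithmic forms of the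
functions `f j`, `j ∉ R t`, are linearly independent on the poles. -/
structure TW (p : ℕ) [CharP L p] [Fintype I] {ι : Type} [Fintype ι]
    (M : LM (⊥ : Subalgebra k L) ⊤ T I) (f : ι → L) (n : ι → I → ℤ) (a h : T → ι → L)
    (Λ : Submodule (ZMod p) (ι → ZMod p)) (R : T → Set ι) : Prop where
  n0 : ∀ j i, n j i ≤ 0
  hA : ∀ t j, h t j ∈ M.A t
  eq : ∀ t j, f j = a t j ^ p - a t j + (∏ i, M.x t i ^ n j i) * h t j
  cmp : ∀ t j l, (∀ i, n j i ≤ n l i ∨ (M.x t i)⁻¹ ∈ M.A t) ∨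
    (∀ i, n l i ≤ n j i ∨ (M.x t i)⁻¹ ∈ M.A t)
  wl : ∀ μ ∈ Λ, ∃ w : L, w ^ p - w = ∑ j, zc p L (μ j) * f j
  ech : ∀ t, ∀ μ ∈ Λ, μ ≠ 0 →
    ∃ j ∈ R t, μ j ≠ 0 ∧ ∀ l, μ l ≠ 0 → ∀ i, n j i ≤ n l i ∨ (M.x t i)⁻¹ ∈ M.A t
  rep : ∀ t (lam : ι → ZMod p), ∃ μ ∈ Λ, ∀ j ∈ R t, lam j = μ j
  ln : ∀ t (κ : Type u) [Field κ] [Algebra k κ] (φ : M.A t →ₐ[k] κ) (j : ι), j ∉ R t →
    (∃ i, n j i < 0 ∧ φ ⟨M.x t i, M.xA t i⟩ = 0) →
    ∃ v : LT φ (M.x t), om v (n j) (hA t j) ≠ 0 ∧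
      ∀ l, l ∉ R t → l ≠ j → om v (n l) (hA t l) = 0

/-- Normal form of the combination `lam` of the functions `f j` modulo `Λ`: on the chart `t` the
representative `lr t` of `lam` is used, with the worst poles `n (j0 t)`. -/
structure TN (p : ℕ) [CharP L p] [Fintype I] {ι : Type} [Fintype ι]
    (M : LM (⊥ : Subalgebra k L) ⊤ T I) (n : ι → I → ℤ) (h : T → ι → L)
    (Λ : Submodule (ZMod p) (ι → ZMod p)) (R : T → Set ι) (lam : ι → ZMod p) (n' : I → ℤ)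
    (h' : T → L) (lr : T → ι → ZMod p) (j0 : T → ι) : Prop where
  mem : ∀ t, lam - lr t ∈ Λ
  zero : ∀ t, ∀ j ∈ R t, lr t j = 0
  ne : ∀ t, lr t (j0 t) ≠ 0
  le : ∀ t l, lr t l ≠ 0 → ∀ i, n (j0 t) i ≤ n l i ∨ (M.x t i)⁻¹ ∈ M.A t
  eqn : ∀ t i, n' i = n (j0 t) i ∨ (M.x t i)⁻¹ ∈ M.A t
  n0 : ∀ i, n' i ≤ 0
  hf : ∀ t, h' t = ∑ l, zc p L (lr t l) * ((∏ i, M.x t i ^ (n l i - n' i)) * h t l)

end tw

section fix

variable {k A : Type u} [Field k] [CommRing A] [Algebra k A]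

/-- The invariants of an automorphism. -/
def fixA (σ : A ≃ₐ[k] A) : Subalgebra k A :=
  AlgHom.equalizer (σ : A →ₐ[k] A) (AlgHom.id k A)

end fix

end Pool.Agent.W558
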