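import Pool.Agent.W558.WT.Stms3
import Pool.Agent.W191.WT.FacA

set_option autoImplicit false
set_option linter.unusedVariables false
set_option linter.unusedSectionVars false

universe u

open Polynomial Pool.Agent.W191.WT

namespace Pool.Agent.W558

theorem wt_fac2 : WT_fac2.{u} := by
  intro p _ k A K _ _ _ _ _ _ _ _ _ _ _ _ σ s hs hσ
  have hp : p.Prime := Fact.out
  have hpow : ∀ (i : ℕ) (a : A), (s ^ i) (algebraMap A K a) = algebraMap A K ((σ ^ i) a) := by
    intro i
    induction i with
    | zero => intro a; simp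
    | succ i ih =>
      intro a
      rw [pow_succ, pow_succ]
      exact (congrArg (s ^ i) (hs a)).trans (ih (σ a))
  have hsp : s ^ p = 1 := by
    ext y
    obtain ⟨a, b, hb, rfl⟩ := IsFractionRing.div_surjective (A := A) y
    rw [map_div₀, hpow, hpow, hσ]
    rfl
  obtain ⟨S, hS1, hS2⟩ := exists_S (k := k) σ p hp.pos hσ
  by_cases h1 : s = 1
  · refine ⟨0, 0, S, by simp, fun _ => rfl, by simp [hp.ne_zero], ?_, hS1, hS2⟩
    intro K1 _ hf
    rw [eq_top_iff]
    intro y _
    exact hf y (by rw [h1]; rfl)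
  · obtain ⟨z, hz⟩ := exists_as s p hp hsp h1
    refine ⟨z, 1, S, by rw [hz, map_one], fun h => absurd h one_ne_zero, ?_, ?_, hS1, hS2⟩
    · rw [map_sub, map_pow, hz, add_pow_char, one_pow]
      ring
    · intro K1 hz1 hf
      rw [eq_top_iff]
      intro y _
      exact mem_of_fixed s p hp hsp z hz K1 hz1 hf y

end Pool.Agent.W558
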