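import Pool.Agent.W558.WT.Quot3
import Pool.Agent.W558.WT.Asm3
import Pool.Agent.W418.LU.Torus

set_option autoImplicit false
set_option linter.unusedVariables false

open Pool.Agent.W558 Pool.Agent.H920R2 Pool.Agent.W418.LU

namespace Pool.Agent.W558.WT

/-- Local uniformization of the localizations of a domain with smooth charts. -/
theorem uniformized_of_LM2 {k A L : Type} [Field k] [CommRing A] [IsDomain A] [Algebra k A]
    [Field L] [Algebra k L] [Algebra A L] [IsScalarTower k A L] [IsFractionRing A L]
    {T I : Type} (M : LM (IsScalarTower.toAlgHom k A L).range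
        (IsScalarTower.toAlgHom k A L).range T I)
    (q : Ideal A) [q.IsPrime] {R : Type} [CommRing R] [Algebra A R] [IsLocalization.AtPrime R q]
    [IsLocalRing R] {K : Type} [Field K] [Algebra R K] [IsFractionRing R K]
    (V : ValuationSubring K) (hV1 : ∀ r : R, algebraMap R K r ∈ V)
    (hV2 : ∀ r : R, r ∈ IsLocalRing.maximalIdeal R ↔ V.valuation (algebraMap R K r) < 1) :
    UniformizedBy R K V := by
  let _ : Algebra A K := ((algebraMap R K).comp (algebraMap A R)).toAlgebra
  have t1 : IsScalarTower A R K := IsScalarTower.of_algebraMap_eq fun a => rfl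
  let _ : Algebra k K := ((algebraMap A K).comp (algebraMap k A)).toAlgebra
  have t2 : IsScalarTower k A K := IsScalarTower.of_algebraMap_eq fun a => rfl
  have hinjAR : Function.Injective (algebraMap A R) :=
    IsLocalization.injective R (Ideal.primeCompl_le_nonZeroDivisors q)
  have hinj : Function.Injective (algebraMap A K) :=
    (IsFractionRing.injective R K).comp hinjAR
  have hfaith : FaithfulSMul A K := (faithfulSMul_iff_algebraMap_injective A K).2 hinj
  have hfr : IsFractionRing A K := by
    refine IsFractionRing.of_field A K ?_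
    intro z
    obtain ⟨r, s, hs, rfl⟩ := IsFractionRing.div_surjective (A := R) z
    obtain ⟨⟨a, t⟩, h1⟩ := IsLocalization.surj q.primeCompl r
    obtain ⟨⟨b, u⟩, h2⟩ := IsLocalization.surj q.primeCompl s
    have ht0 : algebraMap A K (t : A) ≠ 0 := fun h => by
      rw [← map_zero (algebraMap A K)] at h
      exact t.2 (by rw [hinj h]; exact q.zero_mem)
    have hu0 : algebraMap A K (u : A) ≠ 0 := fun h => by
      rw [← map_zero (algebraMap A K)] at h
      exact u.2 (by rw [hinj h]; exact q.zero_mem)
    have hs0 : algebraMap R K s ≠ 0 := by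
      have := nonZeroDivisors.ne_zero hs
      exact (map_ne_zero_iff _ (IsFractionRing.injective R K)).2 this
    refine ⟨a * u, b * t, ?_⟩
    have h1' : algebraMap R K r * algebraMap A K (t : A) = algebraMap A K a := by
      rw [IsScalarTower.algebraMap_apply A R K, IsScalarTower.algebraMap_apply A R K, ← h1,
        map_mul]
    have h2' : algebraMap R K s * algebraMap A K (u : A) = algebraMap A K b := by
      rw [IsScalarTower.algebraMap_apply A R K, IsScalarTower.algebraMap_apply A R K, ← h2,
        map_mul]
    rw [map_mul, map_mul, ← h1', ← h2']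
    field_simp
  let e : L ≃ₐ[A] K := IsLocalization.algEquiv (nonZeroDivisors A) L K
  let e' : L →ₐ[k] K := (e : L →ₐ[A] K).restrictScalars k
  obtain ⟨t, ht⟩ := M.cv (V.comap (e : L →+* K)) (by
    rintro _ ⟨a, rfl⟩
    change e (algebraMap A L a) ∈ V
    rw [e.commutes]
    exact hV1 _)
  let C : Subalgebra k K := (M.A t).map e'
  have hsm := M.sm t
  let eC : M.A t ≃ₐ[k] C := (M.A t).equivMapOfInjective e' e.injective
  have hsmC : Algebra.Smooth k C := Algebra.Smooth.of_equiv eC
  have hft : Algebra.FiniteType k C := inferInstance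
  have hreg : ∀ (q' : Ideal C) [q'.IsPrime], IsRegularLocalRing (Localization.AtPrime q') := by
    intro q' hq'
    exact regular_of_smooth (k := k) (A := C) q'
  refine uniformized_of_chart (k := k) (A := A) q V hV1 hV2 C (C.fg_iff_finiteType.2 hft) ?_ ?_
    hreg
  · intro a
    refine ⟨algebraMap A L a, M.base t ⟨a, rfl⟩, ?_⟩
    exact e.commutes a
  · rintro _ ⟨x, hx, rfl⟩
    exact ht x hx

end Pool.Agent.W558.WT
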