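import Pool.Agent.W558.WT.Asm2
import Pool.Agent.W558.WT.Pi

set_option autoImplicit false
set_option linter.unusedVariables false
set_option linter.unusedSectionVars false

universe u

open Polynomial AlgebraicGeometry CategoryTheory TensorProduct Pool.Agent.W558.WT
  Pool.Agent.H920R2

namespace Pool.Agent.W558

/-- The algebraic statements. -/
structure WQPack : Prop where
  fac : WT_fac.{u}
  ind : WT_ind.{u}
  gal : WT_gal.{u}
  fri : WT_fri.{u}
  art : WT_art.{u}

section setup

variable {p : ℕ} [Fact p.Prime] {k : Type u} [Field k] {n : ℕ} {A : Fin n → Type u}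
  [∀ i, CommRing (A i)] [∀ i, IsDomain (A i)] [∀ i, Algebra k (A i)] [IsDomain (⨂[k] i, A i)]

/-- The embeddings of the fraction fields. -/
lemma exists_e : ∃ e : ∀ i, FractionRing (A i) →ₐ[k] FractionRing (⨂[k] i, A i),
    ∀ i a, e i (algebraMap (A i) (FractionRing (A i)) a) =
      algebraMap (⨂[k] i, A i) (FractionRing (⨂[k] i, A i)) (sg i a) := by
  have h : ∀ i, ∃ e : FractionRing (A i) →ₐ[k] FractionRing (⨂[k] i, A i),
      ∀ a, e (algebraMap (A i) (FractionRing (A i)) a) =
        algebraMap (⨂[k] i, A i) (FractionRing (⨂[k] i, A i)) (sg i a) := by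
    intro i
    let g : A i →ₐ[k] FractionRing (⨂[k] i, A i) :=
      (IsScalarTower.toAlgHom k (⨂[k] i, A i) (FractionRing (⨂[k] i, A i))).comp (sg i)
    have hg : Function.Injective g := by
      intro a b hab
      exact sg_injective i (IsFractionRing.injective (⨂[k] i, A i)
        (FractionRing (⨂[k] i, A i)) hab)
    refine ⟨IsFractionRing.liftAlgHom (K := FractionRing (A i)) hg, fun a => ?_⟩
    exact IsFractionRing.lift_algebraMap hg a
  choose e he using h
  exact ⟨e, he⟩

/-- Two homomorphisms from a fraction field which agree on the ring. -/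
lemma frac_ext {C F E : Type u} [CommRing C] [IsDomain C] [Field F] [Field E] [Algebra C F]
    [IsFractionRing C F] (f g : F →+* E) (h : ∀ c, f (algebraMap C F c) = g (algebraMap C F c))
    (y : F) : f y = g y := by
  obtain ⟨a, b, hb, rfl⟩ := IsFractionRing.div_surjective (A := C) y
  rw [map_div₀, map_div₀, h, h]

end setup

section main

variable (hall : WTPack.{u}) (hs0 : WSPack.{u}) (hq : WQPack.{u})
  (p : ℕ) [Fact p.Prime] (k : Type u) [Field k] [PerfectField k] [CharP k p] (n : ℕ)
  (A : Fin n → Type u) [∀ i, CommRing (A i)] [∀ i, IsDomain (A i)] [∀ i, Algebra k (A i)]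
  [∀ i, Algebra.FiniteType k (A i)] [IsDomain (⨂[k] i, A i)] (σ : ∀ i, A i ≃ₐ[k] A i)

include hall hs0 hq

/-- Quotients of products of surfaces. -/
theorem quot_LM (hσ : ∀ i, σ i ^ p = 1)
    (hrat : ∀ i, Nonempty (FractionRing (fixA (σ i)) ≃ₐ[k] FractionRing (MvPolynomial (Fin 2) k)))
    (G : AddSubgroup (Fin n → ZMod p)) (s : (Fin n → ZMod p) → (⨂[k] i, A i) ≃ₐ[k] (⨂[k] i, A i))
    (hs : ∀ g i a, s g (sg i a) = sg i ((σ i ^ (g i).val) a))
    (Inv : Subalgebra k (⨂[k] i, A i)) (hInv : ∀ b, b ∈ Inv ↔ ∀ g ∈ G, s g b = b) :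
    Algebra.FiniteType k Inv ∧ HasResolution (X := Spec (CommRingCat.of Inv))
      (Spec.map (CommRingCat.ofHom (algebraMap k Inv))) := by
  classical
  have hp : p.Prime := Fact.out
  let B := ⨂[k] i, A i
  let E := FractionRing B
  let K : Fin n → Type u := fun i => FractionRing (A i)
  have hcE : CharP E p := charP_of_injective_algebraMap (algebraMap k E).injective p
  have hcK : ∀ i, CharP (K i) p := fun i =>
    charP_of_injective_algebraMap (algebraMap k (K i)).injective p
  have hadd := s_add hσ hs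
  obtain ⟨e, he⟩ := exists_e (k := k) (A := A)
  -- the automorphisms of the fields
  let sK : ∀ i, K i ≃ₐ[k] K i := fun i => IsFractionRing.algEquivOfAlgEquiv (σ i)
  have hsK : ∀ i a, sK i (algebraMap (A i) (K i) a) = algebraMap (A i) (K i) (σ i a) :=
    fun i a => IsFractionRing.algEquivOfAlgEquiv_algebraMap _ _
  have hsKm : ∀ (m : ℕ) i a, (sK i ^ m) (algebraMap (A i) (K i) a) =
      algebraMap (A i) (K i) ((σ i ^ m) a) := by
    intro m i
    induction m with
    | zero => intro a; rfl
    | succ m ih =>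
      intro a
      rw [pow_succ, pow_succ]
      change (sK i ^ m) (sK i (algebraMap (A i) (K i) a)) =
        algebraMap (A i) (K i) ((σ i ^ m) (σ i a))
      rw [hsK, ih]
  let τ : (Fin n → ZMod p) → E ≃ₐ[k] E := fun g => IsFractionRing.algEquivOfAlgEquiv (s g)
  have hτ : ∀ g b, τ g (algebraMap B E b) = algebraMap B E (s g b) :=
    fun g b => IsFractionRing.algEquivOfAlgEquiv_algebraMap _ _
  have hτe : ∀ g i (y : K i), τ g (e i y) = e i ((sK i ^ (g i).val) y) := by
    intro g i y
    refine frac_ext (C := A i) ((τ g : E →+* E).comp (e i : K i →+* E))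
      ((e i : K i →+* E).comp ((sK i ^ (g i).val : K i ≃ₐ[k] K i) : K i →+* K i)) ?_ y
    intro a
    change τ g (e i (algebraMap (A i) (K i) a)) =
      e i ((sK i ^ (g i).val) (algebraMap (A i) (K i) a))
    rw [hsKm, he, he]
    exact (hτ g _).trans (congrArg _ (hs g i a))
  -- the factors
  choose x z ε P Q S hx hsx hsz hz0 hQ hzz hgen hS hSi using fun i =>
    hq.fac p k (A i) (K i) (σ i) (sK i) (hsK i) (hσ i) (hrat i)
  let X : Fin n × Fin 2 → E := fun q => e q.1 (x q.1 q.2)
  have hX : AlgebraicIndependent k X := hq.ind k 2 n A K E (IsScalarTower.toAlgHom k B E) e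
    (IsFractionRing.injective B E) he x hx
  have heval : ∀ i (F : MvPolynomial (Fin 2) k), e i (MvPolynomial.aeval (x i) F) =
      MvPolynomial.aeval (fun c => X (i, c)) F := by
    intro i F
    rw [← AlgHom.comp_apply, MvPolynomial.comp_aeval]
  have hsxm : ∀ (m : ℕ) i c, (sK i ^ m) (x i c) = x i c := by
    intro m i c
    induction m with
    | zero => rfl
    | succ m ih =>
      rw [pow_succ]
      change (sK i ^ m) (sK i (x i c)) = x i c
      rw [hsx, ih]
  have hszm : ∀ (m : ℕ) i, (sK i ^ m) (z i) = z i + zc p (K i) (m * ε i) := by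
    intro m i
    induction m with
    | zero =>
      rw [pow_zero, Nat.cast_zero, zero_mul, map_zero, add_zero]
      rfl
    | succ m ih =>
      rw [pow_succ']
      change sK i ((sK i ^ m) (z i)) = _
      have h1 : ∀ c : ZMod p, sK i (zc p (K i) c) = zc p (K i) c := fun c =>
        congrArg (fun φ : ZMod p →+* K i => φ c)
          (RingHom.ext_zmod ((sK i : K i →+* K i).comp (zc p (K i))) (zc p (K i)))
      rw [ih, map_add, hsz, h1, Nat.cast_succ, add_mul, one_mul, map_add]
      ring
  let Z : Fin n → E := fun i => e i (z i)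
  have hez : ∀ i (c : ZMod p), e i (zc p (K i) c) = zc p E c := fun i c =>
    congrArg (fun φ : ZMod p →+* E => φ c)
      (RingHom.ext_zmod ((e i : K i →+* E).comp (zc p (K i))) (zc p E))
  have hτX : ∀ g q, τ g (X q) = X q := fun g q => by
    change τ g (e q.1 (x q.1 q.2)) = e q.1 (x q.1 q.2)
    rw [hτe, hsxm]
  have hτZ : ∀ g i, τ g (Z i) = Z i + zc p E (ε i * g i) := fun g i => by
    change τ g (e i (z i)) = e i (z i) + _
    rw [hτe, hszm, map_add, hez, ZMod.natCast_val, ZMod.cast_id', id, mul_comm]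
  let L0 : IntermediateField k E := IntermediateField.adjoin k (Set.range X)
  have hL0eval : ∀ i (F : MvPolynomial (Fin 2) k),
      MvPolynomial.aeval (fun c => X (i, c)) F ∈ L0 := by
    intro i F
    apply IntermediateField.algebra_adjoin_le_adjoin
    have h1 : MvPolynomial.aeval (fun c => X (i, c)) F ∈
        Algebra.adjoin k (Set.range fun c => X (i, c)) := by
      rw [Algebra.adjoin_range_eq_range_aeval]
      exact ⟨F, rfl⟩
    refine Algebra.adjoin_mono ?_ h1
    rintro _ ⟨c, rfl⟩
    exact ⟨(i, c), rfl⟩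
  have hZZ : ∀ i, Z i ^ p - Z i = MvPolynomial.aeval (fun c => X (i, c)) (P i) /
      MvPolynomial.aeval (fun c => X (i, c)) (Q i) := by
    intro i
    change e i (z i) ^ p - e i (z i) = _
    rw [← map_pow, ← map_sub, hzz, map_div₀, heval, heval]
  have hZL : ∀ i, Z i ^ p - Z i ∈ L0 := by
    intro i
    rw [hZZ]
    exact L0.div_mem (hL0eval _ _) (hL0eval _ _)
  -- generation
  have hgenE : IntermediateField.adjoin L0 (Set.range Z) = ⊤ := by
    set F0 : IntermediateField k E :=
      (IntermediateField.adjoin L0 (Set.range Z)).restrictScalars k with hF0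
    have h1 : ∀ i (y : K i), e i y ∈ F0 := by
      intro i y
      have h2 : IntermediateField.adjoin k (insert (z i) (Set.range (x i))) ≤
          F0.comap (e i) := by
        rw [IntermediateField.adjoin_le_iff]
        rintro _ (rfl | ⟨c, rfl⟩)
        · exact IntermediateField.subset_adjoin L0 _ ⟨i, rfl⟩
        · have h3 : X (i, c) ∈ L0 := IntermediateField.subset_adjoin k _ ⟨(i, c), rfl⟩
          exact IntermediateField.algebraMap_mem (IntermediateField.adjoin L0 (Set.range Z))
            ⟨X (i, c), h3⟩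
      rw [hgen i] at h2
      exact h2 trivial
    have h2 : ∀ b : B, algebraMap B E b ∈ F0 := by
      intro b
      have h3 : Algebra.adjoin k (⋃ i, Set.range (sg (k := k) (A := A) i)) ≤
          F0.toSubalgebra.comap (IsScalarTower.toAlgHom k B E) := by
        rw [Algebra.adjoin_le_iff]
        intro b hb
        obtain ⟨i, a, rfl⟩ := Set.mem_iUnion.1 hb
        change algebraMap B E (sg i a) ∈ F0
        rw [← he]
        exact h1 _ _
      rw [pi_adjoin] at h3
      exact h3 (x := b) trivial
    rw [eq_top_iff]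
    intro y _
    obtain ⟨a, b, hb, rfl⟩ := IsFractionRing.div_surjective (A := B) y
    exact F0.div_mem (h2 a) (h2 b)
  have hτL : ∀ g, ∀ y ∈ L0, τ g y = y := by
    intro g
    have h1 : L0 ≤ fixF {τ g} := by
      rw [IntermediateField.adjoin_le_iff]
      rintro _ ⟨q, rfl⟩
      rintro _ rfl
      exact hτX g q
    intro y hy
    exact h1 hy _ rfl
  -- the fixed field
  let KG : IntermediateField k E := fixF {t | ∃ g ∈ G, t = τ g}
  have hKG : ∀ y, y ∈ KG ↔ ∀ g ∈ G, τ g y = y := by
    intro y
    constructor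
    · intro h g hg
      exact h _ ⟨g, hg, rfl⟩
    · rintro h _ ⟨g, hg, rfl⟩
      exact h g hg
  have hcKG : CharP KG p := charP_of_injective_algebraMap (algebraMap k KG).injective p
  have hXK : ∀ q, X q ∈ KG := fun q => (hKG _).2 fun g _ => hτX g q
  have hB : ∀ b : B, b ∈ Inv → algebraMap B E b ∈ KG := by
    intro b hb
    rw [hKG]
    intro g hg
    rw [hτ, (hInv b).1 hb g hg]
  -- the Artin-Schreier generators
  let V : Set (Fin n → ZMod p) := {c | ∀ g ∈ G, ∑ i, c i * (ε i * g i) = 0}
  have hVf : Finite V := Set.toFinite V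
  obtain ⟨r, ⟨ev⟩⟩ := Finite.exists_equiv_fin V
  let W : V → E := fun c => ∑ i, zc p E (c.1 i) * Z i
  have hWK : ∀ c, W c ∈ KG := by
    intro c
    rw [hKG]
    intro g hg
    have hz1 : ∀ c : ZMod p, τ g (zc p E c) = zc p E c := fun c =>
      congrArg (fun φ : ZMod p →+* E => φ c)
        (RingHom.ext_zmod ((τ g : E →+* E).comp (zc p E)) (zc p E))
    change τ g (∑ i, zc p E (c.1 i) * Z i) = ∑ i, zc p E (c.1 i) * Z i
    rw [map_sum]
    have h1 : ∀ i, τ g (zc p E (c.1 i) * Z i) =
        zc p E (c.1 i) * Z i + zc p E (c.1 i * (ε i * g i)) := by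
      intro i
      rw [map_mul, hz1, hτZ, mul_add, ← map_mul]
    rw [Finset.sum_congr rfl fun i _ => h1 i, Finset.sum_add_distrib, ← map_sum, c.2 g hg, map_zero,
      add_zero]
  have hgal : KG ≤ IntermediateField.adjoin k (Set.range X ∪ Set.range W) := by
    intro y hy
    have h1 := hq.gal p k E n L0 Z ε τ G hZL hgenE hτL hτZ (fun i hi => by
      change e i (z i) = 0
      rw [hz0 i hi, map_zero]) y ((hKG y).1 hy)
    have h2 : y ∈ (IntermediateField.adjoin L0 {w | ∃ c : Fin n → ZMod p,
        (∀ g ∈ G, ∑ i, c i * (ε i * g i) = 0) ∧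
        w = ∑ i, zc p E (c i) * Z i}).restrictScalars k := h1
    rw [IntermediateField.adjoin_adjoin_left] at h2
    refine IntermediateField.adjoin.mono k _ _ ?_ h2
    apply Set.union_subset_union_right
    rintro _ ⟨c, hc, rfl⟩
    exact ⟨⟨c, hc⟩, rfl⟩
  let X' : Fin n → Fin 2 → KG := fun i c => ⟨X (i, c), hXK _⟩
  let W' : Fin r → KG := fun j => ⟨W (ev.symm j), hWK _⟩
  have hX' : AlgebraicIndependent k (fun q : Fin n × Fin 2 => X' q.1 q.2) := by
    refine AlgebraicIndependent.of_comp KG.val ?_
    exact hX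
  have heval' : ∀ i (F : MvPolynomial (Fin 2) k), KG.val (MvPolynomial.aeval (X' i) F) =
      MvPolynomial.aeval (fun c => X (i, c)) F := by
    intro i F
    rw [← AlgHom.comp_apply, MvPolynomial.comp_aeval]
    rfl
  have hzcK : ∀ c : ZMod p, KG.val (zc p KG c) = zc p E c := fun c =>
    congrArg (fun φ : ZMod p →+* E => φ c)
      (RingHom.ext_zmod ((KG.val : KG →+* E).comp (zc p KG)) (zc p E))
  have hvi : Function.Injective KG.val := KG.val.injective
  have hW' : ∀ j, W' j ^ p - W' j = ∑ i, zc p KG ((ev.symm j).1 i) *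
      (MvPolynomial.aeval (X' i) (P i) / MvPolynomial.aeval (X' i) (Q i)) := by
    intro j
    apply hvi
    rw [map_sub, map_pow, map_sum]
    have h1 : ∀ i, KG.val (zc p KG ((ev.symm j).1 i) *
        (MvPolynomial.aeval (X' i) (P i) / MvPolynomial.aeval (X' i) (Q i))) =
        zc p E ((ev.symm j).1 i) * (Z i ^ p - Z i) := by
      intro i
      rw [map_mul, map_div₀, heval', heval', hzcK, hZZ]
    rw [Finset.sum_congr rfl fun i _ => h1 i]
    change (∑ i, zc p E ((ev.symm j).1 i) * Z i) ^ p - ∑ i, zc p E ((ev.symm j).1 i) * Z i = _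
    rw [sum_pow_char, ← Finset.sum_sub_distrib]
    refine Finset.sum_congr rfl fun i _ => ?_
    rw [mul_pow, zc_pow]
    ring
  have hgen' : IntermediateField.adjoin k
      (Set.range W' ∪ Set.range fun q : Fin n × Fin 2 => X' q.1 q.2) = ⊤ := by
    apply IntermediateField.lift_injective KG
    rw [IntermediateField.lift_adjoin, IntermediateField.lift_top]
    apply le_antisymm
    · rw [IntermediateField.adjoin_le_iff]
      rintro _ ⟨y, -, rfl⟩
      exact y.2
    · refine hgal.trans (IntermediateField.adjoin.mono k _ _ ?_)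
      rintro _ (⟨q, rfl⟩ | ⟨c, rfl⟩)
      · exact ⟨X' q.1 q.2, Or.inr ⟨q, rfl⟩, rfl⟩
      · refine ⟨W' (ev c), Or.inl ⟨_, rfl⟩, ?_⟩
        change W (ev.symm (ev c)) = W c
        rw [Equiv.symm_apply_apply]
  -- the ring of invariants
  let ρ : Inv →+* KG :=
    { toFun := fun b => ⟨algebraMap B E b, hB b b.2⟩
      map_one' := Subtype.ext (map_one (algebraMap B E))
      map_mul' := fun a b => Subtype.ext (map_mul (algebraMap B E) _ _)
      map_zero' := Subtype.ext (map_zero (algebraMap B E))
      map_add' := fun a b => Subtype.ext (map_add (algebraMap B E) _ _) }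
  let _ : Algebra Inv KG := ρ.toAlgebra
  have hρ : ∀ b : Inv, KG.val (algebraMap Inv KG b) = algebraMap B E b := fun b => rfl
  have tI : IsScalarTower k Inv KG := IsScalarTower.of_algebraMap_eq fun c => by
    apply Subtype.ext
    exact IsScalarTower.algebraMap_apply k B E c
  have hρi : Function.Injective (algebraMap Inv KG) := fun a b hab =>
    Subtype.ext (IsFractionRing.injective B E (congrArg KG.val hab))
  have hfs : FaithfulSMul Inv KG := (faithfulSMul_iff_algebraMap_injective Inv KG).2 hρi
  have hfr : IsFractionRing Inv KG := by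
    refine IsFractionRing.of_field _ _ fun y => ?_
    obtain ⟨a, b, ha, hb, hb0, hab⟩ := hq.fri k B E G (fun g => s g) (fun g => τ g)
      (fun g g' b => hadd g g' b) (fun g b => hτ g b) y (fun g => (hKG y).1 y.2 g g.2)
    have ha' : a ∈ Inv := (hInv a).2 fun g hg => ha ⟨g, hg⟩
    have hb' : b ∈ Inv := (hInv b).2 fun g hg => hb ⟨g, hg⟩
    refine ⟨⟨a, ha'⟩, ⟨b, hb'⟩, ?_⟩
    apply hvi
    rw [map_div₀, hρ, hρ]
    change (y : E) = algebraMap B E a / algebraMap B E b
    rw [eq_div_iff (by
      rw [Ne, IsFractionRing.to_map_eq_zero_iff]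
      exact hb0)]
    exact hab
  have hσm : ∀ (m : ℕ) i, ∀ a ∈ S i, (σ i ^ m) a = a := by
    intro m i a ha
    induction m with
    | zero => rfl
    | succ m ih =>
      rw [pow_succ]
      change (σ i ^ m) (σ i a) = a
      rw [(hS i a ha).1, ih]
  have hsgInv : ∀ i, ∀ a ∈ S i, sg i a ∈ Inv := by
    intro i a ha
    rw [hInv]
    intro g hg
    rw [hs, hσm _ i a ha]
  let S' : Finset Inv := Finset.univ.biUnion fun i =>
    (S i).attach.image fun a => ⟨sg i a.1, hsgInv i a.1 a.2⟩
  have hmS' : ∀ b : Inv, b ∈ S' ↔ ∃ i, ∃ a ∈ S i, sg i a = (b : B) := by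
    intro b
    rw [Finset.mem_biUnion]
    constructor
    · rintro ⟨i, -, h⟩
      obtain ⟨a, -, rfl⟩ := Finset.mem_image.1 h
      exact ⟨i, a.1, a.2, rfl⟩
    · rintro ⟨i, a, ha, h⟩
      refine ⟨i, Finset.mem_univ i, Finset.mem_image.2 ⟨⟨a, ha⟩, Finset.mem_attach _ _, ?_⟩⟩
      exact Subtype.ext h
  let R0 : Subalgebra k Inv := Algebra.adjoin k (S' : Set Inv)
  have hintB : ∀ b : B, IsIntegral R0 b := pi_integral Inv S hSi R0 fun i a ha =>
    ⟨⟨sg i a, hsgInv i a ha⟩, Algebra.subset_adjoin ((hmS' _).2 ⟨i, a, ha, rfl⟩), rfl⟩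
  have hft : Algebra.FiniteType k Inv := by
    have hfB : Algebra.FiniteType k B := pi_finiteType fun i => inferInstance
    refine hq.art k B Inv fun b => ?_
    exact (hintB b).tower_top
  refine ⟨hft, ?_⟩
  obtain ⟨T, I, hT, hI, ⟨M⟩⟩ := wt_LM hall hs0 p k KG n X' P Q r W' (fun j => (ev.symm j).1)
    hX' hQ hW' hgen' Inv S' (by
      intro a ha
      obtain ⟨i, a0, ha0, h1⟩ := (hmS' a).1 ha
      obtain ⟨-, F, H, hF, hH, h2⟩ := hS i a0 ha0
      refine ⟨fun l => if l = i then F else 1, fun l => if l = i then H else 1, ?_, ?_⟩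
      · intro l
        dsimp only
        constructor
        · split_ifs
          · exact hF
          · exact one_ne_zero
        · split_ifs
          · exact hH
          · exact one_ne_zero
      · rw [Finset.prod_eq_single i]
        · dsimp only
          rw [if_pos rfl, if_pos rfl]
          apply hvi
          rw [hρ, ← h1, ← he, h2, map_div₀, map_div₀, heval, heval, heval', heval']
        · intro l _ hl
          dsimp only
          rw [if_neg hl, if_neg hl, map_one, div_one]
        · intro h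
          exact absurd (Finset.mem_univ i) h) (by
      intro a
      have h1 : IsIntegral R0 ((IsScalarTower.toAlgHom R0 Inv B) a) := hintB a
      exact (isIntegral_algHom_iff (IsScalarTower.toAlgHom R0 Inv B)
        Subtype.val_injective).1 h1)
  exact hasResolution_of_LM _ hρi M

end main

end Pool.Agent.W558
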