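import Pool.Agent.W558.WA.Asm1

set_option autoImplicit false
set_option linter.unusedVariables false
set_option linter.unusedSectionVars false

universe u

open TensorProduct

namespace Pool.Agent.W558

/-- FAM: models of the compositum of linearly disjoint fields. -/
def WT_fam : Prop := ∀ (p : ℕ) (k L : Type u) [Field k] [Field L] [Algebra k L] (n : ℕ)
  (E : Fin n → Type u) [∀ i, Field (E i)] [∀ i, Algebra k (E i)] (e : ∀ i, E i →ₐ[k] L)
  (φ : (⨂[k] i, E i) →ₐ[k] L),
  (∀ i a, φ (PiTensorProduct.singleAlgHom (R := k) (A := E) i a) = e i a) →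
  Function.Injective φ → (∀ x : L, ∃ a b, φ b ≠ 0 ∧ x * φ b = φ a) →
  ∀ (G : Type) (f : ∀ i, E i) (c : ∀ i, G → E i), (∀ i, GMA p k (fun _ : Unit => f i) (c i)) →
  GMA p k (fun i => e i (f i)) (fun q : Fin n × G => e q.1 (c q.1 q.2))

end Pool.Agent.W558
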