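import Pool.Agent.W558.WA.Asm1
import Pool.Agent.W558.WT.Pi
import Pool.Agent.W558.WT.Stms

set_option autoImplicit false
set_option linter.unusedVariables false
set_option linter.unusedSectionVars false

universe u

open TensorProduct Pool.Agent.W558.WT

namespace Pool.Agent.W558

/-- MOD: the function field of the quotient of a surface. -/
def WT_mod : Prop := ∀ (p : ℕ) [Fact p.Prime] (k A K : Type u) [Field k] [CommRing A] [IsDomain A]
  [Algebra k A] [Field K] [Algebra k K] [Algebra A K] [IsScalarTower k A K] [IsFractionRing A K]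
  (σ : A ≃ₐ[k] A) (s : K ≃ₐ[k] K), (∀ a, s (algebraMap A K a) = algebraMap A K (σ a)) →
  σ ^ p = 1 → Algebra.trdeg k A = 2 → ∀ (N : ℕ) (H : Fin (N + 1) → K), (∀ l, H l ≠ 0) →
  (∀ j, Algebra.Smooth k (Algebra.adjoin k (Set.range fun l => H l / H j))) →
  (∀ j (a b : A), b ≠ 0 → (σ a * b = a * σ b ↔
    ∃ u ∈ Algebra.adjoin k (Set.range fun l => H l / H j),
    ∃ v ∈ Algebra.adjoin k (Set.range fun l => H l / H j),
      v ≠ 0 ∧ algebraMap A K a / algebraMap A K b = u / v)) →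
  Algebra.trdeg k (fixF {s}) = 2 ∧ HasModel k (fixF {s})

/-- FAC2: cyclic covers of degree `p` or `1`. -/
def WT_fac2 : Prop := ∀ (p : ℕ) [Fact p.Prime] (k A K : Type u) [Field k] [CharP k p] [CommRing A]
  [IsDomain A] [Algebra k A] [Algebra.FiniteType k A] [Field K] [Algebra k K] [Algebra A K]
  [IsScalarTower k A K] [IsFractionRing A K] [CharP K p] (σ : A ≃ₐ[k] A) (s : K ≃ₐ[k] K),
  (∀ a, s (algebraMap A K a) = algebraMap A K (σ a)) → σ ^ p = 1 →
  ∃ (z : K) (e : ZMod p) (S : Finset A),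
    s z = z + zc p K e ∧ (e = 0 → z = 0) ∧ s (z ^ p - z) = z ^ p - z ∧
    (∀ K1 : IntermediateField k K, z ∈ K1 → (∀ y, s y = y → y ∈ K1) → K1 = ⊤) ∧
    (∀ a ∈ S, σ a = a ∧ a ≠ 0) ∧ ∀ a : A, IsIntegral (Algebra.adjoin k (S : Set A)) a

end Pool.Agent.W558
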