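import Pool.Agent.W558.WT.Pi

set_option autoImplicit false
set_option linter.unusedVariables false
set_option linter.unusedSectionVars false

universe u

open TensorProduct

namespace Pool.Agent.W558.WT

/-- `B` with the homomorphisms `j i` is the tensor product of the `k`-algebras `A i`, the coproduct
in the category of commutative `k`-algebras. -/
structure IsTP {k : Type u} [Field k] {n : ℕ} {A : Fin n → Type u} [∀ i, CommRing (A i)]
    [∀ i, Algebra k (A i)] {B : Type u} [CommRing B] [Algebra k B] (j : ∀ i, A i →ₐ[k] B) :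
    Prop where
  lift : ∀ (S : Type u) [CommRing S] [Algebra k S] (f : ∀ i, A i →ₐ[k] S),
    ∃ g : B →ₐ[k] S, ∀ i a, g (j i a) = f i a
  ext : ∀ (S : Type u) [CommRing S] [Algebra k S] (g g' : B →ₐ[k] S),
    (∀ i a, g (j i a) = g' (j i a)) → g = g'

section tp

variable {k : Type u} [Field k] {n : ℕ} {A : Fin n → Type u} [∀ i, CommRing (A i)]
  [∀ i, Algebra k (A i)] {B : Type u} [CommRing B] [Algebra k B] {j : ∀ i, A i →ₐ[k] B}
  (hj : IsTP j)

include hj

lemma IsTP.exists_equiv : ∃ φ : (⨂[k] i, A i) ≃ₐ[k] B, ∀ i a, φ (sg i a) = j i a := by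
  obtain ⟨g, hg⟩ := pi_lift B j
  obtain ⟨g', hg'⟩ := hj.lift (⨂[k] i, A i) fun i => sg i
  have h1 : g.comp g' = AlgHom.id k B := by
    apply hj.ext
    intro i a
    rw [AlgHom.comp_apply, hg', hg]
    rfl
  have h2 : g'.comp g = AlgHom.id k (⨂[k] i, A i) := by
    apply pi_ext
    intro i a
    rw [AlgHom.comp_apply, hg, hg']
    rfl
  exact ⟨AlgEquiv.ofAlgHom g g' h1 h2, hg⟩

lemma IsTP.adjoin : Algebra.adjoin k (⋃ i, Set.range (j i)) = ⊤ := by
  set B' := Algebra.adjoin k (⋃ i, Set.range (j i)) with hB'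
  have hmem : ∀ i a, j i a ∈ B' := fun i a =>
    Algebra.subset_adjoin (Set.mem_iUnion.2 ⟨i, a, rfl⟩)
  obtain ⟨g, hg⟩ := hj.lift B' fun i => (j i).codRestrict B' (hmem i)
  have h1 : B'.val.comp g = AlgHom.id k B := by
    apply hj.ext
    intro i a
    rw [AlgHom.comp_apply, hg]
    rfl
  rw [eq_top_iff]
  intro b _
  have h2 := congrArg (fun φ : B →ₐ[k] B => φ b) h1
  change ((g b : B') : B) = b at h2
  rw [← h2]
  exact (g b).2

lemma IsTP.injective [∀ i, Nontrivial (A i)] (i : Fin n) : Function.Injective (j i) := by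
  obtain ⟨φ, hφ⟩ := hj.exists_equiv
  intro a b hab
  rw [← hφ, ← hφ] at hab
  exact sg_injective i (φ.injective hab)

lemma IsTP.finiteType (hA : ∀ i, Algebra.FiniteType k (A i)) : Algebra.FiniteType k B := by
  obtain ⟨φ, hφ⟩ := hj.exists_equiv
  have := pi_finiteType (k := k) hA
  exact Algebra.FiniteType.equiv this φ

/-- The tensor product is integral over a subalgebra which contains elements over which the
factors are integral. -/
lemma IsTP.integral (Inv : Subalgebra k B) (S : ∀ i, Finset (A i))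
    (hSi : ∀ i, ∀ a : A i, IsIntegral (Algebra.adjoin k (S i : Set (A i))) a)
    (R0 : Subalgebra k Inv)
    (hR : ∀ i, ∀ a ∈ S i, ∃ r ∈ R0, (r : B) = j i a) (b : B) :
    IsIntegral R0 b := by
  have hinj : Function.Injective Inv.val := Subtype.val_injective
  have h1 : ∀ i (a : A i), IsIntegral R0 (j i a) := by
    intro i a
    have h2 : ∀ r : Algebra.adjoin k (S i : Set (A i)), j i r ∈
        R0.map Inv.val := by
      have h3 : (Algebra.adjoin k (S i : Set (A i))).map (j i) ≤
          R0.map Inv.val := by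
        rw [AlgHom.map_adjoin, Algebra.adjoin_le_iff]
        rintro _ ⟨a, ha, rfl⟩
        obtain ⟨r, hr, h⟩ := hR i a ha
        exact ⟨r, hr, h⟩
      exact fun r => h3 ⟨r, r.2, rfl⟩
    let φ : Algebra.adjoin k (S i : Set (A i)) →ₐ[k] R0 :=
      ((R0.equivMapOfInjective Inv.val hinj).symm : R0.map Inv.val →ₐ[k] R0).comp
        (((j i).comp (Algebra.adjoin k (S i : Set (A i))).val).codRestrict
          (R0.map Inv.val) h2)
    refine IsIntegral.map_of_comp_eq (φ : Algebra.adjoin k (S i : Set (A i)) →+* R0)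
      (j i : A i →+* B) ?_ (hSi i a)
    apply RingHom.ext
    intro r
    have h4 : (R0.equivMapOfInjective Inv.val hinj (φ r) : B) = j i r := by
      change ((R0.equivMapOfInjective Inv.val hinj
        ((R0.equivMapOfInjective Inv.val hinj).symm ⟨j i r, h2 r⟩) : R0.map Inv.val) :
          B) = _
      rw [AlgEquiv.apply_symm_apply]
    exact h4
  have h2 : Algebra.adjoin k (⋃ i, Set.range (j i)) ≤
      (integralClosure R0 B).restrictScalars k := by
    rw [Algebra.adjoin_le_iff]
    intro b hb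
    obtain ⟨i, a, rfl⟩ := Set.mem_iUnion.1 hb
    exact h1 i a
  rw [hj.adjoin] at h2
  exact h2 (x := b) trivial

/-- The group law. -/
lemma IsTP.s_add {p : ℕ} [Fact p.Prime] {σ : ∀ i, A i ≃ₐ[k] A i} (hσ : ∀ i, σ i ^ p = 1)
    {s : (Fin n → ZMod p) → B ≃ₐ[k] B}
    (hs : ∀ g i a, s g (j i a) = j i ((σ i ^ (g i).val) a)) (g g' : Fin n → ZMod p) (b : B) :
    s (g + g') b = s g (s g' b) := by
  have h : ((s (g + g') : B →ₐ[k] B)) = (s g : B →ₐ[k] B).comp (s g' : B →ₐ[k] B) := by
    apply hj.ext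
    intro i a
    rw [AlgHom.comp_apply]
    change s (g + g') (j i a) = s g (s g' (j i a))
    rw [hs, hs, hs]
    have h1 : σ i ^ ((g + g') i).val = σ i ^ (g i).val * σ i ^ (g' i).val := by
      rw [← pow_add, Pi.add_apply, ZMod.val_add, ← pow_eq_pow_mod _ (hσ i)]
    rw [h1]
    rfl
  exact congrArg (fun φ : B →ₐ[k] B => φ b) h

end tp

end Pool.Agent.W558.WT
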