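import Pool.Agent.W558.WT.Asm2
import Pool.Agent.W558.WT.Stms3
import Pool.Agent.W558.WT.Stms2
import Pool.Agent.W558.WT.Tp
import Pool.Agent.W410.WT.Ind0

set_option autoImplicit false
set_option linter.unusedVariables false
set_option linter.unusedSectionVars false

universe u

open Polynomial AlgebraicGeometry CategoryTheory TensorProduct Pool.Agent.W558.WT
  Pool.Agent.H920R2 Pool.Agent.W410.WT

namespace Pool.Agent.W558

section phi

variable {k : Type u} [Field k] {n : ℕ} {F K : Fin n → Type u} [∀ i, Field (F i)]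
  [∀ i, Field (K i)] [∀ i, Algebra k (F i)] [∀ i, Algebra k (K i)] {E : Type u} [Field E]
  [Algebra k E]

lemma Phi_single (e : ∀ i, K i →ₐ[k] E) (i : Fin n) (a : K i) :
    Phi e (PiTensorProduct.singleAlgHom (R := k) (A := K) i a) = e i a := by
  change Phi e (PiTensorProduct.tprod k (MonoidHom.mulSingle _ i a)) = _
  rw [Phi_tprod, Finset.prod_eq_single i]
  · rw [MonoidHom.mulSingle_apply, Pi.mulSingle_eq_same]
  · intro l _ hl
    rw [MonoidHom.mulSingle_apply, Pi.mulSingle_eq_of_ne hl, map_one]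
  · intro h
    exact absurd (Finset.mem_univ i) h

/-- Restriction to subfields. -/
lemma Phi_inj_sub (ι : ∀ i, F i →ₐ[k] K i) (e : ∀ i, K i →ₐ[k] E)
    (h : Function.Injective (Phi e)) : Function.Injective (Phi fun i => (e i).comp (ι i)) := by
  have hr : ∀ i, ∃ r : K i →ₗ[k] F i, r ∘ₗ (ι i).toLinearMap = LinearMap.id := fun i =>
    LinearMap.exists_leftInverse_of_injective _ (LinearMap.ker_eq_bot.2 (ι i).injective)
  choose r hr using hr
  let ψ : (⨂[k] i, F i) →ₗ[k] (⨂[k] i, K i) := PiTensorProduct.map fun i => (ι i).toLinearMap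
  have h1 : ∀ x, Phi e (ψ x) = Phi (fun i => (e i).comp (ι i)) x := by
    intro x
    have h2 : (Phi e).toLinearMap ∘ₗ ψ = (Phi fun i => (e i).comp (ι i)).toLinearMap := by
      apply PiTensorProduct.ext
      ext a
      simp only [LinearMap.compMultilinearMap_apply, LinearMap.comp_apply,
        AlgHom.toLinearMap_apply, ψ]
      rw [PiTensorProduct.map_tprod, Phi_tprod, Phi_tprod]
      rfl
    exact LinearMap.congr_fun h2 x
  have h2 : ∀ x, PiTensorProduct.map r (ψ x) = x := by
    intro x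
    have h3 : (PiTensorProduct.map r) ∘ₗ ψ = LinearMap.id := by
      apply PiTensorProduct.ext
      ext a
      simp only [LinearMap.compMultilinearMap_apply, LinearMap.comp_apply, ψ]
      rw [PiTensorProduct.map_tprod, PiTensorProduct.map_tprod]
      change _ = PiTensorProduct.tprod k a
      congr 1
      funext i
      exact LinearMap.congr_fun (hr i) (a i)
    exact LinearMap.congr_fun h3 x
  intro x y hxy
  rw [← h1, ← h1] at hxy
  rw [← h2 x, ← h2 y, h hxy]

end phi

/-- Smooth charts over an affine variety from a model. -/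
theorem LM_of_fn {k K : Type u} [Field k] [PerfectField k] [Field K] [Algebra k K] {T I G : Type}
    [Finite T] [Fintype I] [Finite G] (M : LM (⊥ : Subalgebra k K) ⊤ T I) (s : G → K)
    (Γ : G → I → ℤ) (hFn : Fn M s Γ) (hR : Frc M)
    (A : Type u) [CommRing A] [IsDomain A] [Algebra k A] [Algebra.FiniteType k A] [Algebra A K]
    [IsScalarTower k A K] [IsFractionRing A K] (a : G → A) (ha : ∀ b, algebraMap A K (a b) = s b)
    (hA : ∀ x : A, IsIntegral (Algebra.adjoin k (Set.range a)) x) :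
    ∃ (T I : Type) (_ : Finite T) (_ : Fintype I),
      Nonempty (LM (IsScalarTower.toAlgHom k A K).range (IsScalarTower.toAlgHom k A K).range
        T I) := by
  let ρ : A →ₐ[k] K := IsScalarTower.toAlgHom k A K
  have hfg : ρ.range.FG := by
    have h1 : (⊤ : Subalgebra k A).FG := Algebra.FiniteType.out
    have h2 := h1.map ρ
    rwa [Algebra.map_top] at h2
  have hs : s = fun b => ρ (a b) := funext fun b => (ha b).symm
  have hint : ∀ y ∈ ρ.range, IsIntegral (Algebra.adjoin k (Set.range s)) y := by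
    rintro _ ⟨x, rfl⟩
    have h1 : Algebra.adjoin k (Set.range s) = (Algebra.adjoin k (Set.range a)).map ρ := by
      rw [AlgHom.map_adjoin, hs, ← Set.range_comp]
      rfl
    rw [h1]
    obtain ⟨B, hB, hB'⟩ := hA x
    let φ : Algebra.adjoin k (Set.range a) →+* (Algebra.adjoin k (Set.range a)).map ρ :=
      { toFun := fun y => ⟨ρ y, ⟨y, y.2, rfl⟩⟩
        map_one' := Subtype.ext (map_one ρ)
        map_mul' := fun y y' => Subtype.ext (map_mul ρ _ _)
        map_zero' := Subtype.ext (map_zero ρ)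
        map_add' := fun y y' => Subtype.ext (map_add ρ _ _) }
    refine ⟨B.map φ, hB.map φ, ?_⟩
    rw [eval₂_map]
    have h2 : ((algebraMap ((Algebra.adjoin k (Set.range a)).map ρ) K).comp φ) =
        ρ.toRingHom.comp (algebraMap (Algebra.adjoin k (Set.range a)) A) :=
      RingHom.ext fun y => rfl
    rw [h2]
    have h3 := congrArg ρ.toRingHom hB'
    rw [hom_eval₂, map_zero] at h3
    exact h3
  have hfr : ∀ y : K, ∃ a ∈ ρ.range, ∃ b ∈ ρ.range, b ≠ 0 ∧ y = a * b⁻¹ := by
    intro y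
    obtain ⟨a, b, hb, rfl⟩ := IsFractionRing.div_surjective (A := A) y
    exact ⟨_, ⟨a, rfl⟩, _, ⟨b, rfl⟩, by
      have := nonZeroDivisors.ne_zero hb
      exact (FaithfulSMul.algebraMap_eq_zero_iff A K).not.2 this, div_eq_mul_inv _ _⟩
  obtain ⟨T', I', hT', hI', M', -⟩ := wd_res k K T I G M s Γ hFn hR ρ.range hfg
    (fun b => ⟨a b, ha b⟩) hint hfr
  exact ⟨T', I', hT', hI', ⟨M'⟩⟩

/-- The normal form on surfaces. -/
theorem gma_surf (hs0 : WSPack.{u}) (p : ℕ) [Fact p.Prime] (k E : Type u) [Field k]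
    [PerfectField k] [CharP k p] [Field E] [Algebra k E] (h2 : Algebra.trdeg k E = 2)
    (hM : HasModel k E) (G : Type) [Finite G] (f : E) (c : G → E) (hc : ∀ b, c b ≠ 0) :
    GMA p k (fun _ : Unit => f) c := by
  obtain ⟨s⟩ := all_init k E hM
  obtain ⟨s', Γ, hF, hCO⟩ := hs0.gin k E h2 s G c hc f
  obtain ⟨s'', Γ', hF', hCO', hgd⟩ := hs0.gir p k E h2 s' G c Γ hF f hCO
  obtain ⟨T, I, hT, hI, M, Γ'', n, a, h, hFn, hN, hR⟩ :=
    hs0.loc p k E h2 s'' G c Γ' hF' f hCO' hgd
  refine ⟨T, I, hT, hI, M, fun _ => n, fun t _ => a t, fun t _ => h t, Γ'',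
    ⟨fun _ => hN.n0, fun t _ => hN.hA t, fun t _ => hN.eq t, ?_⟩, hFn, hR⟩
  intro t κ _ _ φ j hj
  obtain ⟨v, hv⟩ := hN.ln t κ φ hj
  exact ⟨v, hv, fun l hl => absurd (Subsingleton.elim l j) hl⟩

end Pool.Agent.W558
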