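import Pool.Agent.W558.WT.Quot2

set_option autoImplicit false
set_option linter.unusedVariables false
set_option linter.unusedSectionVars false

universe u

open Polynomial AlgebraicGeometry CategoryTheory TensorProduct Pool.Agent.W558.WT
  Pool.Agent.H920R2 Pool.Agent.W410.WT

namespace Pool.Agent.W558

section main

variable (hall : WTPack.{u}) (hs0 : WSPack.{u}) (hgal : WT_gal.{u}) (hfri : WT_fri.{u})
  (hart : WT_art.{u}) (hfam : WT_fam.{u})
  (p : ℕ) [Fact p.Prime] (k : Type u) [Field k] [PerfectField k] [CharP k p] (n : ℕ)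
  (A K : Fin n → Type u) [∀ i, CommRing (A i)] [∀ i, IsDomain (A i)] [∀ i, Algebra k (A i)]
  [∀ i, Algebra.FiniteType k (A i)] [∀ i, Field (K i)] [∀ i, Algebra k (K i)]
  [∀ i, Algebra (A i) (K i)] [∀ i, IsScalarTower k (A i) (K i)] [∀ i, IsFractionRing (A i) (K i)]
  (B : Type u) [CommRing B] [IsDomain B] [Algebra k B] (j : ∀ i, A i →ₐ[k] B) (hj : IsTP j)
  (σ : ∀ i, A i ≃ₐ[k] A i)

include hall hs0 hgal hfri hart hfam hj

/-- Quotients of products of surfaces: smooth charts. -/
theorem quot3 (hσ : ∀ i, σ i ^ p = 1) (sK : ∀ i, K i ≃ₐ[k] K i)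
    (hsK : ∀ i a, sK i (algebraMap (A i) (K i) a) = algebraMap (A i) (K i) (σ i a))
    (h2 : ∀ i, Algebra.trdeg k (fixF {sK i}) = 2) (hM : ∀ i, HasModel k (fixF {sK i}))
    (G : AddSubgroup (Fin n → ZMod p)) (s : (Fin n → ZMod p) → B ≃ₐ[k] B)
    (hs : ∀ g i a, s g (j i a) = j i ((σ i ^ (g i).val) a))
    (Inv : Subalgebra k B) (hInv : ∀ b, b ∈ Inv ↔ ∀ g ∈ G, s g b = b) :
    Algebra.FiniteType k Inv ∧ ∃ (L : Type u) (_ : Field L) (_ : Algebra k L) (_ : Algebra Inv L)
      (_ : IsScalarTower k Inv L) (_ : IsFractionRing Inv L) (T I : Type) (_ : Finite T)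
      (_ : Fintype I), Nonempty (LM (IsScalarTower.toAlgHom k Inv L).range
        (IsScalarTower.toAlgHom k Inv L).range T I) := by
  classical
  have hp : p.Prime := Fact.out
  let E := FractionRing B
  have hcE : CharP E p := charP_of_injective_algebraMap (algebraMap k E).injective p
  have hcK : ∀ i, CharP (K i) p := fun i =>
    charP_of_injective_algebraMap (algebraMap k (K i)).injective p
  have hadd := hj.s_add hσ hs
  obtain ⟨e, he, hΦ⟩ := exists_e2 (K := K) (E := E) hj
  -- the automorphisms of the fields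
  have hsKm : ∀ (m : ℕ) i a, (sK i ^ m) (algebraMap (A i) (K i) a) =
      algebraMap (A i) (K i) ((σ i ^ m) a) := by
    intro m i
    induction m with
    | zero => intro a; rfl
    | succ m ih =>
      intro a
      rw [pow_succ, pow_succ]
      change (sK i ^ m) (sK i (algebraMap (A i) (K i) a)) =
        algebraMap (A i) (K i) ((σ i ^ m) (σ i a))
      rw [hsK, ih]
  let τ : (Fin n → ZMod p) → E ≃ₐ[k] E := fun g => IsFractionRing.algEquivOfAlgEquiv (s g)
  have hτ : ∀ g b, τ g (algebraMap B E b) = algebraMap B E (s g b) :=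
    fun g b => IsFractionRing.algEquivOfAlgEquiv_algebraMap _ _
  have hτe : ∀ g i (y : K i), τ g (e i y) = e i ((sK i ^ (g i).val) y) := by
    intro g i y
    refine frac_ext2 (C := A i) ((τ g : E →+* E).comp (e i : K i →+* E))
      ((e i : K i →+* E).comp ((sK i ^ (g i).val : K i ≃ₐ[k] K i) : K i →+* K i)) ?_ y
    intro a
    change τ g (e i (algebraMap (A i) (K i) a)) =
      e i ((sK i ^ (g i).val) (algebraMap (A i) (K i) a))
    rw [hsKm, he, he]
    exact (hτ g _).trans (congrArg _ (hs g i a))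
  -- the factors
  choose z ε S hsz hz0 hzf hgen hS hSi using fun i =>
    wt_fac2 p k (A i) (K i) (σ i) (sK i) (hsK i) (hσ i)
  let F : ∀ i, IntermediateField k (K i) := fun i => fixF {sK i}
  have hF : ∀ i y, y ∈ F i ↔ sK i y = y := fun i y =>
    ⟨fun h => h _ rfl, fun h t ht => by rw [Set.mem_singleton_iff.1 ht]; exact h⟩
  have hFm : ∀ (m : ℕ) i, ∀ y ∈ F i, (sK i ^ m) y = y := by
    intro m i y hy
    induction m with
    | zero => rfl
    | succ m ih =>
      rw [pow_succ]
      change (sK i ^ m) (sK i y) = y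
      rw [(hF i y).1 hy, ih]
  have hszm : ∀ (m : ℕ) i, (sK i ^ m) (z i) = z i + zc p (K i) (m * ε i) := by
    intro m i
    induction m with
    | zero =>
      rw [pow_zero, Nat.cast_zero, zero_mul, map_zero, add_zero]
      rfl
    | succ m ih =>
      rw [pow_succ']
      change sK i ((sK i ^ m) (z i)) = _
      have h1 : ∀ c : ZMod p, sK i (zc p (K i) c) = zc p (K i) c := fun c =>
        congrArg (fun φ : ZMod p →+* K i => φ c)
          (RingHom.ext_zmod ((sK i : K i →+* K i).comp (zc p (K i))) (zc p (K i)))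
      rw [ih, map_add, hsz, h1, Nat.cast_succ, add_mul, one_mul, map_add]
      ring
  let Z : Fin n → E := fun i => e i (z i)
  have hez : ∀ i (c : ZMod p), e i (zc p (K i) c) = zc p E c := fun i c =>
    congrArg (fun φ : ZMod p →+* E => φ c)
      (RingHom.ext_zmod ((e i : K i →+* E).comp (zc p (K i))) (zc p E))
  have hτF : ∀ g i, ∀ y ∈ F i, τ g (e i y) = e i y := fun g i y hy => by
    rw [hτe, hFm _ i y hy]
  have hτZ : ∀ g i, τ g (Z i) = Z i + zc p E (ε i * g i) := fun g i => by
    change τ g (e i (z i)) = e i (z i) + _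
    rw [hτe, hszm, map_add, hez, ZMod.natCast_val, ZMod.cast_id', id, mul_comm]
  let L0 : IntermediateField k E := IntermediateField.adjoin k {y | ∃ i, ∃ x ∈ F i, y = e i x}
  have hL0 : ∀ i, ∀ y ∈ F i, e i y ∈ L0 := fun i y hy =>
    IntermediateField.subset_adjoin k _ ⟨i, y, hy, rfl⟩
  have hzF : ∀ i, z i ^ p - z i ∈ F i := fun i => (hF i _).2 (hzf i)
  have hZL : ∀ i, Z i ^ p - Z i ∈ L0 := by
    intro i
    have h1 : Z i ^ p - Z i = e i (z i ^ p - z i) := by rw [map_sub, map_pow]
    rw [h1]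
    exact hL0 i _ (hzF i)
  -- generation
  have hgenE : IntermediateField.adjoin L0 (Set.range Z) = ⊤ := by
    set F0 : IntermediateField k E :=
      (IntermediateField.adjoin L0 (Set.range Z)).restrictScalars k with hF0
    have h1 : ∀ i (y : K i), e i y ∈ F0 := by
      intro i y
      have h2 : F0.comap (e i) = ⊤ := by
        refine hgen i _ ?_ ?_
        · exact IntermediateField.subset_adjoin L0 _ ⟨i, rfl⟩
        · intro y hy
          exact IntermediateField.algebraMap_mem (IntermediateField.adjoin L0 (Set.range Z))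
            ⟨e i y, hL0 i y ((hF i y).2 hy)⟩
      have h3 : y ∈ F0.comap (e i) := by rw [h2]; trivial
      exact h3
    have h2 : ∀ b : B, algebraMap B E b ∈ F0 := by
      intro b
      have h3 : Algebra.adjoin k (⋃ i, Set.range (j i)) ≤
          F0.toSubalgebra.comap (IsScalarTower.toAlgHom k B E) := by
        rw [Algebra.adjoin_le_iff]
        intro b hb
        obtain ⟨i, a, rfl⟩ := Set.mem_iUnion.1 hb
        change algebraMap B E (j i a) ∈ F0
        rw [← he]
        exact h1 _ _
      rw [hj.adjoin] at h3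
      exact h3 (x := b) trivial
    rw [eq_top_iff]
    intro y _
    obtain ⟨a, b, hb, rfl⟩ := IsFractionRing.div_surjective (A := B) y
    exact F0.div_mem (h2 a) (h2 b)
  have hτL : ∀ g, ∀ y ∈ L0, τ g y = y := by
    intro g
    have h1 : L0 ≤ fixF {τ g} := by
      rw [IntermediateField.adjoin_le_iff]
      rintro _ ⟨i, y, hy, rfl⟩
      rintro _ rfl
      exact hτF g i y hy
    intro y hy
    exact h1 hy _ rfl
  -- the fixed field
  let KG : IntermediateField k E := fixF {t | ∃ g ∈ G, t = τ g}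
  have hKG : ∀ y, y ∈ KG ↔ ∀ g ∈ G, τ g y = y := by
    intro y
    constructor
    · intro h g hg
      exact h _ ⟨g, hg, rfl⟩
    · rintro h _ ⟨g, hg, rfl⟩
      exact h g hg
  have hcKG : CharP KG p := charP_of_injective_algebraMap (algebraMap k KG).injective p
  have hcL0 : CharP L0 p := charP_of_injective_algebraMap (algebraMap k L0).injective p
  have hLK : L0 ≤ KG := fun y hy => (hKG y).2 fun g _ => hτL g y hy
  have hB : ∀ b : B, b ∈ Inv → algebraMap B E b ∈ KG := by
    intro b hb
    rw [hKG]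
    intro g hg
    rw [hτ, (hInv b).1 hb g hg]
  -- the Artin-Schreier generators
  let V : Set (Fin n → ZMod p) := {c | ∀ g ∈ G, ∑ i, c i * (ε i * g i) = 0}
  have hVf : Finite V := Set.toFinite V
  obtain ⟨r, ⟨ev⟩⟩ := Finite.exists_equiv_fin V
  let W : V → E := fun c => ∑ i, zc p E (c.1 i) * Z i
  have hWK : ∀ c, W c ∈ KG := by
    intro c
    rw [hKG]
    intro g hg
    have hz1 : ∀ c : ZMod p, τ g (zc p E c) = zc p E c := fun c =>
      congrArg (fun φ : ZMod p →+* E => φ c)
        (RingHom.ext_zmod ((τ g : E →+* E).comp (zc p E)) (zc p E))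
    change τ g (∑ i, zc p E (c.1 i) * Z i) = ∑ i, zc p E (c.1 i) * Z i
    rw [map_sum]
    have h1 : ∀ i, τ g (zc p E (c.1 i) * Z i) =
        zc p E (c.1 i) * Z i + zc p E (c.1 i * (ε i * g i)) := by
      intro i
      rw [map_mul, hz1, hτZ, mul_add, ← map_mul]
    rw [Finset.sum_congr rfl fun i _ => h1 i, Finset.sum_add_distrib, ← map_sum, c.2 g hg, map_zero,
      add_zero]
  let W' : Fin r → KG := fun i => ⟨W (ev.symm i), hWK _⟩
  have hgal' : ∀ y ∈ KG, y ∈ IntermediateField.adjoin L0 (Set.range fun i => (W' i : E)) := by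
    intro y hy
    have h1 := hgal p k E n L0 Z ε τ G hZL hgenE hτL hτZ (fun i hi => by
      change e i (z i) = 0
      rw [hz0 i hi, map_zero]) y ((hKG y).1 hy)
    refine IntermediateField.adjoin.mono L0 _ _ ?_ h1
    rintro _ ⟨c, hc, rfl⟩
    refine ⟨ev ⟨c, hc⟩, ?_⟩
    change W (ev.symm (ev ⟨c, hc⟩)) = _
    rw [Equiv.symm_apply_apply]
  -- the model of the compositum
  obtain ⟨e', φ, he', hφe, hφi, hφf⟩ := exists_L0 e hΦ F L0 rfl
  let G0 := (i : Fin n) × Fin (S i).card
  let eS : ∀ i, {a // a ∈ S i} ≃ Fin (S i).card := fun i => (S i).equivFin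
  have hSF : ∀ i, ∀ a ∈ S i, algebraMap (A i) (K i) a ∈ F i := fun i a ha =>
    (hF i _).2 (by rw [hsK, (hS i a ha).1])
  let c : ∀ i, G0 → F i := fun i b =>
    if h : b.1 = i then ⟨algebraMap (A i) (K i) ((eS i).symm (h ▸ b.2)).1,
      hSF i _ ((eS i).symm (h ▸ b.2)).2⟩ else 1
  have hc0 : ∀ i b, c i b ≠ 0 := by
    intro i b
    change (if h : b.1 = i then _ else _) ≠ (0 : F i)
    split_ifs with h
    · intro h1
      have h3 : algebraMap (A i) (K i) ((eS i).symm (h ▸ b.2)).1 = 0 := congrArg Subtype.val h1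
      rw [IsFractionRing.to_map_eq_zero_iff] at h3
      exact (hS i _ ((eS i).symm (h ▸ b.2)).2).2 h3
    · exact one_ne_zero
  let f : ∀ i, F i := fun i => ⟨z i ^ p - z i, hzF i⟩
  have hGM : GMA p k (fun i => e' i (f i)) (fun q : Fin n × G0 => e' q.1 (c q.1 q.2)) :=
    hfam p k L0 n (fun i => F i) e' φ hφe hφi hφf G0 f c fun i =>
      gma_surf hs0 p k (F i) (h2 i) (hM i) G0 (f i) (c i) (hc0 i)
  have hGT := (gmt_init hall hGM).prod
  -- the tower
  let _ : Algebra L0 KG := (IntermediateField.inclusion hLK).toRingHom.toAlgebra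
  have hLKv : ∀ y : L0, KG.val (algebraMap L0 KG y) = y := fun y => rfl
  have tL : IsScalarTower k L0 KG := IsScalarTower.of_algebraMap_eq fun c => by
    apply Subtype.ext
    rfl
  have tL' : IsScalarTower L0 KG E := IsScalarTower.of_algebraMap_eq fun c => rfl
  have hzcK : ∀ c : ZMod p, KG.val (zc p KG c) = zc p E c := fun c =>
    congrArg (fun φ : ZMod p →+* E => φ c)
      (RingHom.ext_zmod ((KG.val : KG →+* E).comp (zc p KG)) (zc p E))
  have hvi : Function.Injective KG.val := KG.val.injective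
  have hW' : ∀ l, W' l ^ p - W' l = ∑ i, zc p KG ((ev.symm l).1 i) *
      algebraMap L0 KG (e' i (f i)) := by
    intro l
    apply hvi
    rw [map_sub, map_pow, map_sum]
    have h1 : ∀ i, KG.val (zc p KG ((ev.symm l).1 i) * algebraMap L0 KG (e' i (f i))) =
        zc p E ((ev.symm l).1 i) * (Z i ^ p - Z i) := by
      intro i
      rw [map_mul, hLKv, hzcK, he']
      change _ * e i (z i ^ p - z i) = _
      rw [map_sub, map_pow]
    rw [Finset.sum_congr rfl fun i _ => h1 i]
    change (∑ i, zc p E ((ev.symm l).1 i) * Z i) ^ p - ∑ i, zc p E ((ev.symm l).1 i) * Z i = _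
    rw [sum_pow_char, ← Finset.sum_sub_distrib]
    refine Finset.sum_congr rfl fun i _ => ?_
    rw [mul_pow, zc_pow]
    ring
  have hgen' : IntermediateField.adjoin L0 (Set.range W') = ⊤ := by
    let ψ : KG →ₐ[L0] E := IsScalarTower.toAlgHom L0 KG E
    rw [eq_top_iff]
    intro y _
    have h1 : ψ y ∈ (IntermediateField.adjoin L0 (Set.range W')).map ψ := by
      rw [IntermediateField.adjoin_map, ← Set.range_comp]
      exact hgal' y y.2
    obtain ⟨y', hy', h2⟩ := h1
    have h3 : y' = y := ψ.injective h2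
    rw [← h3]
    exact hy'
  obtain ⟨T, I, hT, hI, M, n', a', h', Λ', R', Γ', -, hF', hR'⟩ :=
    gmt_tower hall p k r L0 KG _ _ hGT W' (fun l => (ev.symm l).1) hW' hgen'
  -- the ring of invariants
  let ρ : Inv →+* KG :=
    { toFun := fun b => ⟨algebraMap B E b, hB b b.2⟩
      map_one' := Subtype.ext (map_one (algebraMap B E))
      map_mul' := fun a b => Subtype.ext (map_mul (algebraMap B E) _ _)
      map_zero' := Subtype.ext (map_zero (algebraMap B E))
      map_add' := fun a b => Subtype.ext (map_add (algebraMap B E) _ _) }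
  let _ : Algebra Inv KG := ρ.toAlgebra
  have hρ : ∀ b : Inv, KG.val (algebraMap Inv KG b) = algebraMap B E b := fun b => rfl
  have tI : IsScalarTower k Inv KG := IsScalarTower.of_algebraMap_eq fun c => by
    apply Subtype.ext
    exact IsScalarTower.algebraMap_apply k B E c
  have hρi : Function.Injective (algebraMap Inv KG) := fun a b hab =>
    Subtype.ext (IsFractionRing.injective B E (congrArg KG.val hab))
  have hfs : FaithfulSMul Inv KG := (faithfulSMul_iff_algebraMap_injective Inv KG).2 hρi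
  have hfr : IsFractionRing Inv KG := by
    refine IsFractionRing.of_field _ _ fun y => ?_
    obtain ⟨a, b, ha, hb, hb0, hab⟩ := hfri k B E G (fun g => s g) (fun g => τ g)
      (fun g g' b => hadd g g' b) (fun g b => hτ g b) y (fun g => (hKG y).1 y.2 g g.2)
    have ha' : a ∈ Inv := (hInv a).2 fun g hg => ha ⟨g, hg⟩
    have hb' : b ∈ Inv := (hInv b).2 fun g hg => hb ⟨g, hg⟩
    refine ⟨⟨a, ha'⟩, ⟨b, hb'⟩, ?_⟩
    apply hvi
    rw [map_div₀, hρ, hρ]
    change (y : E) = algebraMap B E a / algebraMap B E b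
    rw [eq_div_iff (by
      rw [Ne, IsFractionRing.to_map_eq_zero_iff]
      exact hb0)]
    exact hab
  have hσm : ∀ (m : ℕ) i, ∀ a ∈ S i, (σ i ^ m) a = a := by
    intro m i a ha
    induction m with
    | zero => rfl
    | succ m ih =>
      rw [pow_succ]
      change (σ i ^ m) (σ i a) = a
      rw [(hS i a ha).1, ih]
  have hjInv : ∀ i, ∀ a ∈ S i, j i a ∈ Inv := by
    intro i a ha
    rw [hInv]
    intro g hg
    rw [hs, hσm _ i a ha]
  let aG : G0 → Inv := fun b => ⟨j b.1 ((eS b.1).symm b.2).1,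
    hjInv b.1 _ ((eS b.1).symm b.2).2⟩
  let R0 : Subalgebra k Inv := Algebra.adjoin k (Set.range aG)
  have hmR : ∀ i, ∀ a ∈ S i, ∃ r ∈ R0, (r : B) = j i a := by
    intro i a ha
    refine ⟨aG ⟨i, eS i ⟨a, ha⟩⟩, Algebra.subset_adjoin ⟨_, rfl⟩, ?_⟩
    change j i ((eS i).symm (eS i ⟨a, ha⟩)).1 = j i a
    rw [Equiv.symm_apply_apply]
  have hintB : ∀ b : B, IsIntegral R0 b := hj.integral Inv S hSi R0 hmR
  have hft : Algebra.FiniteType k Inv := by
    have hfB : Algebra.FiniteType k B := hj.finiteType fun i => inferInstance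
    refine hart k B Inv fun b => ?_
    exact (hintB b).tower_top
  refine ⟨hft, ?_⟩
  obtain ⟨T', I', hT', hI', ⟨M'⟩⟩ := LM_of_fn M _ Γ' hF' hR' Inv aG (by
    intro b
    apply hvi
    rw [hLKv, hρ]
    symm
    change L0.val (∏ i, e' i (c i b)) = algebraMap B E (j b.1 ((eS b.1).symm b.2).1)
    rw [map_prod, Finset.prod_eq_single b.1]
    · change ((e' b.1 (c b.1 b) : L0) : E) = _
      rw [he', ← he]
      congr 1
      change ((if h : b.1 = b.1 then _ else _ : F b.1) : K b.1) = _
      rw [dif_pos rfl]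
    · intro l _ hl
      change ((e' l (c l b) : L0) : E) = 1
      rw [he']
      have h1 : c l b = 1 := by
        change (if h : b.1 = l then _ else _) = (1 : F l)
        rw [dif_neg (fun h => hl h.symm)]
      rw [h1]
      exact map_one (e l)
    · intro h
      exact absurd (Finset.mem_univ _) h) (by
      intro a
      have h1 : IsIntegral R0 ((IsScalarTower.toAlgHom R0 Inv B) a) := hintB a
      exact (isIntegral_algHom_iff (IsScalarTower.toAlgHom R0 Inv B)
        Subtype.val_injective).1 h1)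
  exact ⟨KG, inferInstance, inferInstance, inferInstance, tI, hfr, T', I', hT', hI', ⟨M'⟩⟩

end main

end Pool.Agent.W558
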